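import Pool.Agent.Lib.MP_4fb322_lc_h33.IPDefs

set_option autoImplicit false

namespace Pool.Agent.Lib.MP_4fb322_lc_h33

open Set Filter Pool.Agent.Lib.MP_4fb322_lc_h7

private theorem i01_offdiag {α : Type} [DecidableEq α] (E : Finset α) : E.card ≤ 1 + E.offDiag.card := by
  rw [Finset.offDiag_card]
  rcases Nat.eq_zero_or_pos E.card with h | h
  · rw [h]; omega
  · obtain ⟨k, hk⟩ : ∃ k, E.card = k + 1 := ⟨E.card - 1, by omega⟩
    rw [hk]
    have : (k + 1) * (k + 1) - (k + 1) = k * (k + 1) := by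
      rw [Nat.sub_eq_iff_eq_add (by nlinarith)]
      ring
    rw [this]
    nlinarith

private theorem i01_fiber {Θ : Type} [Fintype Θ] [DecidableEq Θ] {N : ℕ} (F : Finset (Fin (N + 1) → Θ))
    (h : Fin N → Θ) :
    (F.filter (fun f => Fin.tail f = h)).card ≤ 1 + ((Finset.univ : Finset (Θ × Θ)).filter
      (fun pq => pq.1 ≠ pq.2 ∧ (Fin.cons pq.1 h : Fin (N + 1) → Θ) ∈ F ∧
        (Fin.cons pq.2 h : Fin (N + 1) → Θ) ∈ F)).card := by
  obtain ⟨E, hE⟩ : ∃ E : Finset Θ, E = Finset.univ.filter (fun p => (Fin.cons p h : Fin (N + 1) → Θ) ∈ F) :=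
    ⟨_, rfl⟩
  have h1 : (F.filter (fun f => Fin.tail f = h)).card ≤ E.card := by
    apply Finset.card_le_card_of_injOn (fun f => f 0)
    · intro f hf
      rw [Finset.mem_coe, Finset.mem_filter] at hf
      rw [Finset.mem_coe, hE, Finset.mem_filter]
      refine ⟨Finset.mem_univ _, ?_⟩
      rw [← hf.2, Fin.cons_self_tail]
      exact hf.1
    · intro f hf g hg hfg
      rw [Finset.mem_coe, Finset.mem_filter] at hf hg
      rw [← Fin.cons_self_tail f, ← Fin.cons_self_tail g, hf.2, hg.2]
      simp only at hfg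
      rw [hfg]
  refine h1.trans ((i01_offdiag E).trans ?_)
  apply Nat.add_le_add_left
  apply Finset.card_le_card
  rintro ⟨p, q⟩ hpq
  rw [Finset.mem_offDiag, hE, Finset.mem_filter, Finset.mem_filter] at hpq
  rw [Finset.mem_filter]
  exact ⟨Finset.mem_univ _, hpq.2.2, hpq.1.2, hpq.2.1.2⟩

/-- Row I01. Natarajan's lemma.
Recipe: induction on `N`, for all `d`, `F`. `d = 0`: `F` is nonempty. `N = 0`, `d + 1`: `F.card ≤ 1`. Step `N + 1`, `d + 1`: write `f = Fin.cons p h`,
`F' = F.image Fin.tail`, for `p ≠ q` let `F_pq = {h ∈ F' | Fin.cons p h ∈ F ∧ Fin.cons q h ∈ F}`. For `h ∈ F'` the set `E_h = {p | Fin.cons p h ∈ F}` is nonempty,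
so `|E_h| ≤ 1 + #{(p,q) ∈ E_h × E_h | p ≠ q}` and `|F| = ∑ |E_h| ≤ |F'| + ∑_{p ≠ q} |F_pq|`. If `bnd K N (d+1) < |F'|` use the induction hypothesis for
`F'` and `d + 1`, `e' = Fin.succ ∘ e`. Otherwise `K * bnd K N d < ∑_{p ≠ q} |F_pq|`, there are at most `K` pairs, so `bnd K N d < |F_pq|` for some `p ≠ q`;
induction hypothesis for `F_pq` and `d`; `e' = Fin.cons 0 (Fin.succ ∘ e)`, `p' = Fin.cons p _`, `q' = Fin.cons q _`. -/
theorem nat_lemma {Θ : Type} [Finite Θ] (K : ℕ) (hK : Nat.card Θ ^ 2 ≤ K) :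
    ∀ (N d : ℕ) (F : Finset (Fin N → Θ)), bnd K N d < F.card → NSh (F : Set (Fin N → Θ)) d := by
  classical
  haveI : Fintype Θ := Fintype.ofFinite Θ
  have hd0 : ∀ (N : ℕ) (F : Finset (Fin N → Θ)), 0 < F.card → NSh (F : Set (Fin N → Θ)) 0 := by
    intro N F hF
    obtain ⟨f, hf⟩ := Finset.card_pos.1 hF
    refine ⟨Fin.elim0, Fin.elim0, Fin.elim0, fun i => i.elim0, fun i => i.elim0, fun S => ⟨f, hf, fun i => i.elim0⟩⟩
  intro N
  induction N with
  | zero =>
    intro d F hF
    rcases d with _ | d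
    · apply hd0
      exact lt_of_le_of_lt (Nat.zero_le _) hF
    · exfalso
      have h1 : F.card ≤ 1 := Finset.card_le_one_of_subsingleton F
      have h2 : bnd K 0 (d + 1) = 1 := rfl
      rw [h2] at hF
      omega
  | succ N ih =>
    intro d F hF
    rcases d with _ | d
    · apply hd0
      exact lt_of_le_of_lt (Nat.zero_le _) hF
    · have hb : bnd K (N + 1) (d + 1) = bnd K N (d + 1) + K * bnd K N d := rfl
      rw [hb] at hF
      obtain ⟨F', hF'⟩ : ∃ F' : Finset (Fin N → Θ), F' = F.image Fin.tail := ⟨_, rfl⟩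
      obtain ⟨P, hP⟩ : ∃ P : Finset (Θ × Θ), P = Finset.univ.filter (fun pq => pq.1 ≠ pq.2) := ⟨_, rfl⟩
      obtain ⟨G, hG⟩ : ∃ G : Θ × Θ → Finset (Fin N → Θ), G = fun pq => F'.filter
          (fun h => (Fin.cons pq.1 h : Fin (N + 1) → Θ) ∈ F ∧ (Fin.cons pq.2 h : Fin (N + 1) → Θ) ∈ F) := ⟨_, rfl⟩
      have hcount : F.card ≤ F'.card + ∑ pq ∈ P, (G pq).card := by
        have h1 : F.card = ∑ h ∈ F', (F.filter (fun f => Fin.tail f = h)).card := by
          apply Finset.card_eq_sum_card_fiberwise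
          intro f hf
          rw [Finset.mem_coe, hF']
          exact Finset.mem_image_of_mem _ hf
        rw [h1]
        calc ∑ h ∈ F', (F.filter (fun f => Fin.tail f = h)).card
            ≤ ∑ h ∈ F', (1 + ((Finset.univ : Finset (Θ × Θ)).filter
              (fun pq => pq.1 ≠ pq.2 ∧ (Fin.cons pq.1 h : Fin (N + 1) → Θ) ∈ F ∧
              (Fin.cons pq.2 h : Fin (N + 1) → Θ) ∈ F)).card) :=
              Finset.sum_le_sum fun h _ => i01_fiber F h
          _ = F'.card + ∑ h ∈ F', ((Finset.univ : Finset (Θ × Θ)).filter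
              (fun pq => pq.1 ≠ pq.2 ∧ (Fin.cons pq.1 h : Fin (N + 1) → Θ) ∈ F ∧
              (Fin.cons pq.2 h : Fin (N + 1) → Θ) ∈ F)).card := by
              rw [Finset.sum_add_distrib]
              simp
          _ = F'.card + ∑ pq ∈ P, (G pq).card := by
              congr 1
              have h2 : ∀ h ∈ F', ((Finset.univ : Finset (Θ × Θ)).filter
                  (fun pq => pq.1 ≠ pq.2 ∧ (Fin.cons pq.1 h : Fin (N + 1) → Θ) ∈ F ∧
                  (Fin.cons pq.2 h : Fin (N + 1) → Θ) ∈ F)).card =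
                  ∑ pq ∈ P, if ((Fin.cons pq.1 h : Fin (N + 1) → Θ) ∈ F ∧
                  (Fin.cons pq.2 h : Fin (N + 1) → Θ) ∈ F) then 1 else 0 := by
                intro h _
                rw [← Finset.card_filter, hP, Finset.filter_filter]
              rw [Finset.sum_congr rfl h2, Finset.sum_comm]
              apply Finset.sum_congr rfl
              intro pq _
              rw [hG, ← Finset.card_filter]
      by_cases hcase : bnd K N (d + 1) < F'.card
      · obtain ⟨e, p, q, he, hpq, hS⟩ := ih (d + 1) F' hcase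
        refine ⟨fun i => (e i).succ, p, q, fun i j hij => he (Fin.succ_injective _ hij), hpq, ?_⟩
        intro S
        obtain ⟨f', hf', hf2⟩ := hS S
        rw [Finset.mem_coe, hF', Finset.mem_image] at hf'
        obtain ⟨f, hf, rfl⟩ := hf'
        exact ⟨f, hf, hf2⟩
      · have h1 : K * bnd K N d < ∑ pq ∈ P, (G pq).card := by omega
        have h2 : ∃ pq ∈ P, bnd K N d < (G pq).card := by
          by_contra hcon
          push Not at hcon
          have h3 : ∑ pq ∈ P, (G pq).card ≤ P.card * bnd K N d := by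
            have := Finset.sum_le_card_nsmul P (fun pq => (G pq).card) (bnd K N d) hcon
            simpa using this
          have h4 : P.card ≤ K := by
            refine le_trans (Finset.card_le_univ P) ?_
            rw [Fintype.card_prod, ← Nat.card_eq_fintype_card]
            rw [pow_two] at hK
            exact hK
          have h5 : P.card * bnd K N d ≤ K * bnd K N d := Nat.mul_le_mul_right _ h4
          omega
        obtain ⟨⟨p, q⟩, hpqP, hlt⟩ := h2
        rw [hP, Finset.mem_filter] at hpqP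
        obtain ⟨e, p', q', he, hpq, hS⟩ := ih d (G (p, q)) hlt
        refine ⟨Fin.cons 0 (fun i => (e i).succ), Fin.cons p p', Fin.cons q q', ?_, ?_, ?_⟩
        · rw [Fin.cons_injective_iff]
          refine ⟨?_, fun i j hij => he (Fin.succ_injective _ hij)⟩
          rintro ⟨i, hi⟩
          exact Fin.succ_ne_zero _ hi
        · intro i
          refine Fin.cases ?_ (fun i => ?_) i
          · exact hpqP.2
          · exact hpq i
        · intro S
          obtain ⟨h, hh, hh2⟩ := hS {i | i.succ ∈ S}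
          rw [Finset.mem_coe, hG, Finset.mem_filter] at hh
          by_cases h0 : (0 : Fin (d + 1)) ∈ S
          · refine ⟨Fin.cons p h, hh.2.1, fun i => ?_⟩
            refine Fin.cases ?_ (fun i => ?_) i
            · exact ⟨fun _ => rfl, fun hn => absurd h0 hn⟩
            · exact hh2 i
          · refine ⟨Fin.cons q h, hh.2.2, fun i => ?_⟩
            refine Fin.cases ?_ (fun i => ?_) i
            · exact ⟨fun hn => absurd hn h0, fun _ => rfl⟩
            · exact hh2 i

end Pool.Agent.Lib.MP_4fb322_lc_h33
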