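import Pool.Agent.Lib.MP_4fb322_lc_h33.IPDefs

set_option autoImplicit false

namespace Pool.Agent.Lib.MP_4fb322_lc_h33

open Set Filter Pool.Agent.Lib.MP_4fb322_lc_h7

private theorem bnd_le_i02 (K : ℕ) : ∀ N d, bnd K N d ≤ ((K + 1) * (N + 1)) ^ d := by
  intro N
  induction N with
  | zero =>
    intro d
    rcases d with _ | d
    · simp [bnd]
    · simp only [bnd]
      exact Nat.one_le_pow _ _ (by positivity)
  | succ N ih =>
    intro d
    rcases d with _ | d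
    · simp [bnd]
    · simp only [bnd]
      have h1 := ih (d + 1)
      have h2 := ih d
      have h3 : ((K + 1) * (N + 1)) ^ d ≤ ((K + 1) * (N + 1 + 1)) ^ d :=
        Nat.pow_le_pow_left (Nat.mul_le_mul_left _ (by omega)) d
      calc bnd K N (d + 1) + K * bnd K N d
          ≤ ((K + 1) * (N + 1)) ^ (d + 1) + K * ((K + 1) * (N + 1)) ^ d :=
            Nat.add_le_add h1 (Nat.mul_le_mul_left _ h2)
        _ = ((K + 1) * (N + 1)) ^ d * ((K + 1) * (N + 1) + K) := by ring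
        _ ≤ ((K + 1) * (N + 1 + 1)) ^ d * ((K + 1) * (N + 1 + 1)) := by
            apply Nat.mul_le_mul h3
            nlinarith
        _ = ((K + 1) * (N + 1 + 1)) ^ (d + 1) := by ring

/-- Row I02. -/
theorem bnd_lt (K d : ℕ) : ∃ N, bnd K N d < 2 ^ N := by
  have h1 := tendsto_pow_const_div_const_pow_of_one_lt d (r := (2 : ℝ)) (by norm_num)
  have hε : (0 : ℝ) < 1 / (2 * ((K : ℝ) + 1) ^ d) := by positivity
  have h2 : ∀ᶠ n : ℕ in atTop, (n : ℝ) ^ d / 2 ^ n < 1 / (2 * ((K : ℝ) + 1) ^ d) :=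
    h1.eventually (eventually_lt_nhds hε)
  obtain ⟨n, h3, h4⟩ := (h2.and (eventually_gt_atTop 0)).exists
  obtain ⟨N, rfl⟩ := Nat.exists_eq_succ_of_ne_zero h4.ne'
  refine ⟨N, lt_of_le_of_lt (bnd_le_i02 K N d) ?_⟩
  have h5 : (((K + 1) * (N + 1)) ^ d : ℝ) < 2 ^ N := by
    rw [div_lt_div_iff₀ (by positivity) (by positivity)] at h3
    push_cast at h3
    rw [mul_pow]
    have h6 : (2 : ℝ) ^ (N + 1) = 2 * 2 ^ N := by ring
    rw [Nat.succ_eq_add_one, h6] at h3
    nlinarith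
  exact_mod_cast h5

end Pool.Agent.Lib.MP_4fb322_lc_h33
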