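import Pool.Agent.Lib.MP_4fb322_lc_h33.I01
import Pool.Agent.Lib.MP_4fb322_lc_h33.I02

set_option autoImplicit false

namespace Pool.Agent.Lib.MP_4fb322_lc_h33

open Set Filter Pool.Agent.Lib.MP_4fb322_lc_h7

/-- Row I03. Recipe: `K = Nat.card Θ ^ 2`, `d = n * K`, `N` from `bnd_lt`, `z, y_S` from `h N`, `F` = image of `S ↦ (i ↦ T (z i) y_S)` (injective in `S`, so `F.card = 2 ^ N`);
`nat_lemma` gives `e, p, q` on `Fin d`; pigeonhole: `n` indices with the same pair `(p i, q i) = (t, t₀)` (`n = 0`: use `n = 1` or any two types: `h 1` shows that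
`Θ` has two elements). -/
theorem shat2_one {Θ V : Type} [Finite Θ] (T : V → V → Θ) (θ : Θ) (h : ∀ n, Shat T θ n) (n : ℕ) :
    ∃ t t₀, t ≠ t₀ ∧ Shat2 T t t₀ n := by
  classical
  rcases Nat.eq_zero_or_pos n with rfl | hn
  · obtain ⟨z, hz⟩ := h 1
    obtain ⟨y, hy⟩ := hz Set.univ
    obtain ⟨y', hy'⟩ := hz ∅
    refine ⟨T (z 0) y, T (z 0) y', ?_, fun i => i.elim0, fun S => ⟨y, fun i => i.elim0⟩⟩
    intro heq
    have h1 := (hy 0).2 (Set.mem_univ _)
    exact Set.notMem_empty _ ((hy' 0).1 (heq.symm.trans h1))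
  · have := Fintype.ofFinite Θ
    set K : ℕ := Nat.card Θ ^ 2 with hK
    obtain ⟨N, hN⟩ := bnd_lt K (n * K)
    obtain ⟨z, hz⟩ := h N
    choose y hy using hz
    let φ : Set (Fin N) → (Fin N → Θ) := fun S i => T (z i) (y S)
    have hφ : Function.Injective φ := by
      intro S S' hSS
      ext i
      rw [← hy S i, ← hy S' i]
      have : T (z i) (y S) = T (z i) (y S') := congrFun hSS i
      rw [this]
    let F : Finset (Fin N → Θ) := Finset.univ.image φ
    have hF : F.card = 2 ^ N := by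
      rw [Finset.card_image_of_injective _ hφ, Finset.card_univ, Fintype.card_set,
        Fintype.card_fin]
    obtain ⟨e, p, q, he, hpq, hS⟩ := nat_lemma K le_rfl N (n * K) F (by rw [hF]; exact hN)
    have hne : Nonempty (Θ × Θ) := by
      have : 0 < n * K := by
        refine Nat.mul_pos hn ?_
        rw [hK]
        obtain ⟨z1, hz1⟩ := h 1
        obtain ⟨y1, -⟩ := hz1 Set.univ
        have : Nonempty Θ := ⟨T (z1 0) y1⟩
        exact pow_pos Nat.card_pos 2
      exact ⟨(p ⟨0, this⟩, q ⟨0, this⟩)⟩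
    obtain ⟨⟨t, t₀⟩, ht⟩ := Fintype.exists_le_card_fiber_of_mul_le_card
      (f := fun i : Fin (n * K) => (p i, q i)) (n := n) (by
        rw [Fintype.card_prod, Fintype.card_fin, hK, Nat.card_eq_fintype_card, pow_two]
        exact le_of_eq (Nat.mul_comm _ _))
    obtain ⟨s, hs, hcard⟩ := Finset.exists_subset_card_eq ht
    let ι : Fin n → Fin (n * K) := fun j => (s.equivFinOfCardEq hcard).symm j
    have hι : Function.Injective ι := fun a b hab =>
      (s.equivFinOfCardEq hcard).symm.injective (Subtype.ext hab)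
    have hιm : ∀ j, p (ι j) = t ∧ q (ι j) = t₀ := by
      intro j
      have h1 := hs ((s.equivFinOfCardEq hcard).symm j).2
      have h2 := (Finset.mem_filter.1 h1).2
      exact ⟨congrArg Prod.fst h2, congrArg Prod.snd h2⟩
    refine ⟨t, t₀, ?_, fun j => z (e (ι j)), fun S => ?_⟩
    · have := hpq (ι ⟨0, hn⟩)
      rwa [(hιm _).1, (hιm _).2] at this
    · obtain ⟨f, hf, hfS⟩ := hS (ι '' S)
      obtain ⟨S₀, -, rfl⟩ := Finset.mem_image.1 (Finset.mem_coe.1 hf)
      refine ⟨y S₀, fun j => ⟨fun hj => ?_, fun hj => ?_⟩⟩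
      · rw [← (hιm j).1]
        exact (hfS (ι j)).1 (Set.mem_image_of_mem _ hj)
      · rw [← (hιm j).2]
        refine (hfS (ι j)).2 fun hmem => hj ?_
        obtain ⟨k, hk, hkj⟩ := hmem
        rwa [← hι hkj]

end Pool.Agent.Lib.MP_4fb322_lc_h33
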