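import Pool.Agent.Lib.MP_4fb322_lc_h33.I03

set_option autoImplicit false

namespace Pool.Agent.Lib.MP_4fb322_lc_h33

open Set Filter Pool.Agent.Lib.MP_4fb322_lc_h7

/-- Row I04. Recipe: pigeonhole over `n` (finitely many pairs) and restriction to fewer points. -/
theorem shat2_all {Θ V : Type} [Finite Θ] (T : V → V → Θ) (θ : Θ) (h : ∀ n, Shat T θ n) :
    ∃ t t₀, t ≠ t₀ ∧ ∀ n, Shat2 T t t₀ n := by
  choose t t₀ hne hs using shat2_one T θ h
  obtain ⟨p, hp⟩ := Finite.exists_infinite_fiber (fun n => (t n, t₀ n))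
  refine ⟨p.1, p.2, ?_, ?_⟩
  · obtain ⟨m, hm⟩ := hp.nonempty
    have e : (t m, t₀ m) = p := hm
    rw [← e]
    exact hne m
  · intro n
    have hinf : ((fun n => (t n, t₀ n)) ⁻¹' {p}).Infinite := Set.infinite_coe_iff.1 hp
    obtain ⟨m, hm, hnm⟩ := hinf.exists_gt n
    have e : (t m, t₀ m) = p := hm
    have h2 := hs m
    rw [show t m = p.1 from congrArg Prod.fst e, show t₀ m = p.2 from congrArg Prod.snd e] at h2
    obtain ⟨z, hz⟩ := h2
    refine ⟨fun i => z (Fin.castLE hnm.le i), fun S => ?_⟩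
    obtain ⟨y, hy⟩ := hz (Fin.castLE hnm.le '' S)
    refine ⟨y, fun i => ⟨fun hi => (hy _).1 (Set.mem_image_of_mem _ hi), fun hi => (hy _).2 ?_⟩⟩
    rintro ⟨j, hj, hij⟩
    exact hi ((Fin.castLE_injective hnm.le hij) ▸ hj)

end Pool.Agent.Lib.MP_4fb322_lc_h33
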