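import Pool.Agent.Lib.MP_4fb322_lc_h33.IPDefs

set_option autoImplicit false

namespace Pool.Agent.Lib.MP_4fb322_lc_h33

open Set Filter Pool.Agent.Lib.MP_4fb322_lc_h7

/-- Row I05. Recipe: choose `zN, yN` for every `N` (`h N`); `z i N = zN ⟨i, _⟩` for `i < N`, `y S N = yN {i | (i : ℕ) ∈ S}`; the statement holds for all `N > i`, hence
for `UF`-almost all `N` (`UF` is the hyperfilter); `lim_eq`. -/
theorem ultra {Θ V : Type} [Finite Θ] [Nonempty Θ] (T : V → V → Θ) (t t₀ : Θ)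
    (h : ∀ n, Shat2 T t t₀ n) : ∃ (z : ℕ → ℕ → V) (y : Set ℕ → ℕ → V), ∀ i S,
      (i ∈ S → TT T (z i) (y S) = t) ∧ (i ∉ S → TT T (z i) (y S) = t₀) := by
  classical
  choose z hz using h
  choose y hy using hz
  refine ⟨fun i N => if hi : i < N then z N ⟨i, hi⟩ else y N ∅,
    fun S N => y N {i | (i : ℕ) ∈ S}, fun i S => ?_⟩
  have hev : ∀ᶠ N in (UF : Filter ℕ), i < N :=
    Nat.hyperfilter_le_atTop (Filter.eventually_gt_atTop i)
  refine ⟨fun hi => ?_, fun hi => ?_⟩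
  · unfold TT
    refine lim_eq ?_
    filter_upwards [hev] with N hN
    rw [dif_pos hN]
    exact (hy N {i | (i : ℕ) ∈ S} ⟨i, hN⟩).1 hi
  · unfold TT
    refine lim_eq ?_
    filter_upwards [hev] with N hN
    rw [dif_pos hN]
    exact (hy N {i | (i : ℕ) ∈ S} ⟨i, hN⟩).2 hi

end Pool.Agent.Lib.MP_4fb322_lc_h33
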