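import Pool.Agent.Lib.MP_4fb322_lc_h33.IPDefs

set_option autoImplicit false

namespace Pool.Agent.Lib.MP_4fb322_lc_h33

open Set Filter Pool.Agent.Lib.MP_4fb322_lc_h7

/-- Row I06. Ramsey's theorem for pairs. -/
theorem ram {κ : Type} [Finite κ] (c : ℕ → ℕ → κ) :
    ∃ (g : ℕ → ℕ) (k : κ), StrictMono g ∧ ∀ i j, i < j → c (g i) (g j) = k := by
  haveI : Nonempty κ := ⟨c 0 0⟩
  have h1 : ∀ i, ∀ᶠ j in (UF : Filter ℕ), c i j = lim UF (c i) := fun i => lim_spec UF (c i)
  have h2 : ∀ᶠ i in (UF : Filter ℕ), lim UF (c i) = lim UF (fun i => lim UF (c i)) :=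
    lim_spec UF (fun i => lim UF (c i))
  have hgt : ∀ i : ℕ, ∀ᶠ j in (UF : Filter ℕ), i < j := by
    intro i
    have h3 : ∀ᶠ j in (atTop : Filter ℕ), i < j := eventually_gt_atTop i
    have h4 : (UF : Filter ℕ) ≤ atTop := by
      rw [← Nat.cofinite_eq_atTop]
      exact Filter.hyperfilter_le_cofinite
    exact h3.filter_mono h4
  obtain ⟨g, hg1, hg2⟩ := exists_seq_of_forall_finset_exists
    (fun i : ℕ => lim UF (c i) = lim UF (fun i => lim UF (c i)))
    (fun i j : ℕ => i < j ∧ c i j = lim UF (fun i => lim UF (c i)))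
    (by
      intro s hs
      have h5 : ∀ᶠ j in (UF : Filter ℕ), ∀ x ∈ s, x < j ∧ c x j = lim UF (c x) := by
        rw [Filter.eventually_all_finset]
        intro x _
        exact (hgt x).and (h1 x)
      obtain ⟨y, hy1, hy2⟩ := (h2.and h5).exists
      refine ⟨y, hy1, fun x hx => ⟨(hy2 x hx).1, ?_⟩⟩
      rw [(hy2 x hx).2]
      exact hs x hx)
  refine ⟨g, lim UF (fun i => lim UF (c i)), ?_, fun i j hij => (hg2 i j hij).2⟩
  intro i j hij
  exact (hg2 i j hij).1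

end Pool.Agent.Lib.MP_4fb322_lc_h33
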