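import Pool.Agent.Lib.MP_4fb322_lc_h33.I06

set_option autoImplicit false

namespace Pool.Agent.Lib.MP_4fb322_lc_h33

open Set Filter Pool.Agent.Lib.MP_4fb322_lc_h7

/-- Row I07. Recipe: `ram` for `c i j = T (z i) (z j)` gives `g`; `z' i = z (g i)`, `y' S = y (g '' S)`. -/
theorem sys1 {Θ X : Type} [Finite Θ] (T : X → X → Θ) (t t₀ : Θ) (z : ℕ → X) (y : Set ℕ → X)
    (h : ∀ i S, (i ∈ S → T (z i) (y S) = t) ∧ (i ∉ S → T (z i) (y S) = t₀)) :
    ∃ α z' y', Sys T t t₀ α z' y' := by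
  obtain ⟨g, α, hg, hα⟩ := ram (fun i j => T (z i) (z j))
  refine ⟨α, fun i => z (g i), fun S => y (g '' S), ?_, ?_⟩
  · intro i S
    refine ⟨fun hi => (h (g i) (g '' S)).1 (Set.mem_image_of_mem g hi), fun hi => ?_⟩
    refine (h (g i) (g '' S)).2 fun hmem => hi ?_
    obtain ⟨j, hj, hji⟩ := hmem
    rwa [← hg.injective hji]
  · intro i j hij
    exact hα i j hij

end Pool.Agent.Lib.MP_4fb322_lc_h33
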