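import Pool.Agent.Lib.MP_4fb322_lc_h33.I06

set_option autoImplicit false

namespace Pool.Agent.Lib.MP_4fb322_lc_h33

open Set Filter Pool.Agent.Lib.MP_4fb322_lc_h7

private theorem exists_enum : ∃ e : ℕ → Finset ℕ, ∀ D₀ : Finset ℕ, ∃ᶠ k in atTop, e k = D₀ := by
  obtain ⟨f, hf⟩ := exists_surjective_nat (Finset ℕ × ℕ)
  refine ⟨fun k => (f k).1, ?_⟩
  intro D₀
  rw [Nat.frequently_atTop_iff_infinite]
  have hinj : Function.Injective (fun n : ℕ => Classical.choose (hf (D₀, n))) := by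
    intro n m h
    have h1 := Classical.choose_spec (hf (D₀, n))
    have h2 := Classical.choose_spec (hf (D₀, m))
    simp only at h
    rw [h] at h1
    rw [h1] at h2
    exact (Prod.mk.inj h2).2
  refine Set.Infinite.mono ?_ (Set.infinite_range_of_injective hinj)
  rintro _ ⟨n, rfl⟩
  have h1 := Classical.choose_spec (hf (D₀, n))
  show (f (Classical.choose (hf (D₀, n)))).1 = D₀
  rw [h1]

/-- Row I08. Recipe: take `e : ℕ → Finset ℕ` such that every finite set is `e k` for infinitely many `k` (a surjection `ℕ → Finset ℕ × ℕ`, first component).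
`Y j = y {k | j ∈ e k}`; `ram` for `c i j = T (Y i) (Y j)` gives `g`, `β`; `b j = Y (g j)`, `D k = {j | g j ∈ e k}` (finite: `(e k).preimage g`), and `D k = D₀` whenever
`e k = D₀.image g`. `dz`: `w = y {k}`. -/
theorem sys2 {Θ X : Type} [Finite Θ] (T : X → X → Θ) (t t₀ α : Θ) (ht : t ≠ t₀) (z : ℕ → X)
    (y : Set ℕ → X) (h : Sys T t t₀ α z y) : ∃ β b D, Sys2 T t t₀ α β z b D := by
  classical
  obtain ⟨e, he⟩ := exists_enum
  obtain ⟨g, β, hg, hβ⟩ := ram (fun i j => T (y {k | i ∈ e k}) (y {k | j ∈ e k}))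
  refine ⟨β, fun j => y {k | g j ∈ e k}, fun k => (e k).preimage g hg.injective.injOn, ?_⟩
  refine ⟨h.mono, hβ, ?_, ?_, ?_, ?_⟩
  · intro k j hj
    rw [Finset.mem_preimage] at hj
    exact (h.pat k {k | g j ∈ e k}).1 hj
  · intro k j hj
    rw [Finset.mem_preimage] at hj
    exact (h.pat k {k | g j ∈ e k}).2 hj
  · intro D₀
    refine (he (D₀.image g)).mono ?_
    intro k hk
    ext j
    rw [Finset.mem_preimage, hk, Finset.mem_image]
    constructor
    · rintro ⟨i, hi, hij⟩
      rwa [← hg.injective hij]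
    · intro hj
      exact ⟨j, hj, rfl⟩
  · intro k l hkl
    left
    refine ⟨y {k}, ?_⟩
    have h1 := (h.pat k {k}).1 (Set.mem_singleton k)
    have h2 := (h.pat l {k}).2 (fun hl => hkl (Set.mem_singleton_iff.mp hl).symm)
    rw [h1, h2]
    exact ht

end Pool.Agent.Lib.MP_4fb322_lc_h33
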