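import Pool.Agent.Lib.MP_4fb322_lc_h33.IPDefs

set_option autoImplicit false

namespace Pool.Agent.Lib.MP_4fb322_lc_h33

open Set Filter Pool.Agent.Lib.MP_4fb322_lc_h7

/-- Row I09. Recipe: `Filter.extraction_forall_of_frequently` (or `extraction_forall_of_frequently`) gives a strictly increasing `k` with `D (k i) = E i`; `a i = z (k i)`.
`Dst (a i) (a j)`: `dz`. `Dst (b i) (b j)`, `i ≠ j`: some `k` has `D k = {i}`: `w = z k`, `t ≠ t₀`. `Dst (a i) (b j)`: by `inf` there are `l, l' > k i` with `D l = {j}`, `D l' = ∅`: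
`T (z l) (b j) = t`, `T (z l') (b j) = t₀`, but `T (z l) (z (k i)) = T (z l') (z (k i)) = op α`; one of `w = z l`, `w = z l'` distinguishes. -/
theorem config {Θ X : Type} (op : Θ → Θ) (T : X → X → Θ) (hop : ∀ x y, T y x = op (T x y))
    (t t₀ α β : Θ) (ht : t ≠ t₀) (z b : ℕ → X) (D : ℕ → Finset ℕ) (h : Sys2 T t t₀ α β z b D)
    (E : ℕ → Finset ℕ) : ∃ a : ℕ → X, (∀ i j, i < j → T (a i) (a j) = α) ∧
      (∀ i j, j ∈ E i → T (a i) (b j) = t) ∧ (∀ i j, j ∉ E i → T (a i) (b j) = t₀) ∧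
      (∀ i j, i ≠ j → Dst T (a i) (a j)) ∧ (∀ i j, i ≠ j → Dst T (b i) (b j)) ∧
      ∀ i j, Dst T (a i) (b j) := by
  obtain ⟨k, hk, hkD⟩ := Filter.extraction_forall_of_frequently (P := fun i n => D n = E i)
    (fun i => h.inf (E i))
  refine ⟨fun i => z (k i), ?_, ?_, ?_, ?_, ?_, ?_⟩
  · intro i j hij
    exact h.zz _ _ (hk hij)
  · intro i j hj
    exact h.zb _ _ (by rw [hkD i]; exact hj)
  · intro i j hj
    exact h.zb' _ _ (by rw [hkD i]; exact hj)
  · intro i j hij
    exact h.dz _ _ (fun he => hij (hk.injective he))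
  · intro i j hij
    obtain ⟨l, hl⟩ := (h.inf {i}).exists
    refine Or.inr ⟨z l, ?_⟩
    rw [h.zb l i (by rw [hl]; exact Finset.mem_singleton_self i),
      h.zb' l j (by rw [hl]; exact fun hj => hij (Finset.mem_singleton.1 hj).symm)]
    exact ht
  · intro i j
    obtain ⟨l, hl, hlt⟩ := ((h.inf {j}).and_eventually (eventually_gt_atTop (k i))).exists
    obtain ⟨l', hl', hlt'⟩ := ((h.inf ∅).and_eventually (eventually_gt_atTop (k i))).exists
    have e1 : T (z l) (b j) = t := h.zb l j (by rw [hl]; exact Finset.mem_singleton_self j)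
    have e2 : T (z l') (b j) = t₀ := h.zb' l' j (by rw [hl']; exact Finset.notMem_empty j)
    have e3 : T (z l) (z (k i)) = op α := by rw [hop (z (k i)) (z l), h.zz _ _ hlt]
    have e4 : T (z l') (z (k i)) = op α := by rw [hop (z (k i)) (z l'), h.zz _ _ hlt']
    by_cases hc : op α = t
    · refine Or.inr ⟨z l', ?_⟩
      rw [e4, e2, hc]
      exact ht
    · refine Or.inr ⟨z l, ?_⟩
      rw [e3, e1]
      exact hc

end Pool.Agent.Lib.MP_4fb322_lc_h33
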