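import Pool.Agent.Lib.MP_4fb322_lc_h33.IPDefs

set_option autoImplicit false

namespace Pool.Agent.Lib.MP_4fb322_lc_h33

open Set Filter Pool.Agent.Lib.MP_4fb322_lc_h7

/-- Row I10. Properties of the ultrapower. Recipe: (1) `lim_spec`, `lim_eq`; (2) if `x N = x' N` for `UF`-almost all `N` then no point distinguishes `x` and `x'` (`lim_eq`,
`lim_spec`), and `Ultrafilter.frequently_iff_eventually`-type dichotomy; (3) finitely many conditions hold for `UF`-almost all `N`: `T (φ x N) (φ y N) = TT T (φ x) (φ y)`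
for `x, y ∈ Y`, `φ x N ≠ φ y N` for `x ≠ y` in `Y`; take `f x = φ x N`. -/
theorem ultra_op {Θ V : Type} [Finite Θ] [Nonempty Θ] (op : Θ → Θ) (T : V → V → Θ)
    (hop : ∀ x y, T y x = op (T x y)) (x y : ℕ → V) : TT T y x = op (TT T x y) := by
  refine lim_eq ?_
  filter_upwards [lim_spec UF (fun N => T (x N) (y N))] with N hN
  rw [hop, hN]
  rfl

theorem ultra_ne {Θ V : Type} [Finite Θ] [Nonempty Θ] (T : V → V → Θ) (x x' : ℕ → V)
    (h : Dst (TT T) x x') : ∀ᶠ N in (UF : Filter ℕ), x N ≠ x' N := by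
  by_contra hno
  have h1 : ∀ᶠ N in (UF : Filter ℕ), x N = x' N := by
    rw [← Ultrafilter.eventually_not] at hno
    exact hno.mono fun N hN => not_not.1 hN
  rcases h with ⟨w, hw⟩ | ⟨w, hw⟩
  · apply hw
    refine lim_eq ?_
    filter_upwards [h1, lim_spec UF (fun N => T (x' N) (w N))] with N hN hN2
    rw [hN, hN2]
    rfl
  · apply hw
    refine lim_eq ?_
    filter_upwards [h1, lim_spec UF (fun N => T (w N) (x' N))] with N hN hN2
    rw [hN, hN2]
    rfl

theorem ultra_emb {Θ V W : Type} [Finite Θ] [Nonempty Θ] (T : V → V → Θ) (φ : W → ℕ → V)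
    (hφ : ∀ x y, x ≠ y → ∀ᶠ N in (UF : Filter ℕ), φ x N ≠ φ y N) (Y : Set W) (hY : Y.Finite) :
    ∃ f : W → V, PE (fun x y => TT T (φ x) (φ y)) T Y f := by
  have h1 : ∀ᶠ N in (UF : Filter ℕ), ∀ x ∈ Y, ∀ y ∈ Y, x ≠ y → φ x N ≠ φ y N := by
    refine (Filter.eventually_all_finite hY).2 fun x _ =>
      (Filter.eventually_all_finite hY).2 fun y _ => ?_
    by_cases hxy : x = y
    · exact Filter.Eventually.of_forall fun N h => absurd hxy h
    · exact (hφ x y hxy).mono fun N h _ => h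
  have h2 : ∀ᶠ N in (UF : Filter ℕ), ∀ x ∈ Y, ∀ y ∈ Y,
      T (φ x N) (φ y N) = TT T (φ x) (φ y) := by
    refine (Filter.eventually_all_finite hY).2 fun x _ =>
      (Filter.eventually_all_finite hY).2 fun y _ => ?_
    exact lim_spec UF (fun N => T (φ x N) (φ y N))
  obtain ⟨N, hN1, hN2⟩ := (h1.and h2).exists
  refine ⟨fun x => φ x N, ?_, fun x hx y hy => hN2 x hx y hy⟩
  intro x hx y hy hxy
  by_contra hne
  exact hN1 x hx y hy hne hxy

end Pool.Agent.Lib.MP_4fb322_lc_h33
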