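import Pool.Agent.Lib.MP_4fb322_lc_h33.I04
import Pool.Agent.Lib.MP_4fb322_lc_h33.I05
import Pool.Agent.Lib.MP_4fb322_lc_h33.I07
import Pool.Agent.Lib.MP_4fb322_lc_h33.I08
import Pool.Agent.Lib.MP_4fb322_lc_h33.I09
import Pool.Agent.Lib.MP_4fb322_lc_h33.I10

set_option autoImplicit false

namespace Pool.Agent.Lib.MP_4fb322_lc_h33

open Set Filter Pool.Agent.Lib.MP_4fb322_lc_h7

private theorem i11_dst_symm {Θ X : Type} (T : X → X → Θ) (x y : X) (h : Dst T x y) : Dst T y x := by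
  rcases h with ⟨w, hw⟩ | ⟨w, hw⟩
  · exact Or.inl ⟨w, fun e => hw e.symm⟩
  · exact Or.inr ⟨w, fun e => hw e.symm⟩

/-- Row I11. Assembly of the first part. Recipe: `ultra`, `sys1`, `sys2`, `config` in `X = ℕ → V` with the relation `TT T` (`ultra_op`); `φ = Sum.elim a b`,
`S x y = TT T (φ x) (φ y)`; `Dst` is symmetric; `ultra_ne`, `ultra_emb`. -/
theorem model {Θ V : Type} [Finite Θ] [Nonempty Θ] (op : Θ → Θ) (T : V → V → Θ)
    (hop : ∀ x y, T y x = op (T x y)) (t t₀ : Θ) (ht : t ≠ t₀) (h : ∀ n, Shat2 T t t₀ n) :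
    ∃ α β, ∀ E : ℕ → Finset ℕ, ∃ S : ℕ ⊕ ℕ → ℕ ⊕ ℕ → Θ, Mod op α β t t₀ E S ∧
      ∀ Y : Set (ℕ ⊕ ℕ), Y.Finite → ∃ f : ℕ ⊕ ℕ → V, PE S T Y f := by
  obtain ⟨z, y, hzy⟩ := ultra T t t₀ h
  obtain ⟨α, z', y', hs⟩ := sys1 (TT T) t t₀ z y hzy
  obtain ⟨β, b, D, hs2⟩ := sys2 (TT T) t t₀ α ht z' y' hs
  refine ⟨α, β, fun E => ?_⟩
  obtain ⟨a, haa, hab, hab', da, db, dab⟩ :=
    config op (TT T) (fun x y => ultra_op op T hop x y) t t₀ α β ht z' b D hs2 E
  refine ⟨fun x y => TT T (Sum.elim a b x) (Sum.elim a b y), ?_, ?_⟩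
  · exact
      { op' := fun x y => ultra_op op T hop _ _
        aa := fun i j hij => haa i j hij
        bb := fun i j hij => hs2.bb i j hij
        ab := fun i j hij => hab i j hij
        ab' := fun i j hij => hab' i j hij }
  · intro Y hY
    refine ultra_emb T (Sum.elim a b) ?_ Y hY
    intro x y hxy
    apply ultra_ne T
    rcases x with i | i <;> rcases y with j | j
    · exact da i j (fun e => hxy (by rw [e]))
    · exact dab i j
    · exact i11_dst_symm _ _ _ (dab j i)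
    · exact db i j (fun e => hxy (by rw [e]))

end Pool.Agent.Lib.MP_4fb322_lc_h33
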