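import Pool.Agent.Lib.MP_4fb322_lc_h33.IPDefs

set_option autoImplicit false

namespace Pool.Agent.Lib.MP_4fb322_lc_h33

open Set Filter Pool.Agent.Lib.MP_4fb322_lc_h7

/-- Row I12. Recipe: fix `u₀ ∈ s`; `W` = span of the `s.card - 1` vectors `v u - v u₀`, `u ∈ s.erase u₀`: `finrank W ≤ s.card - 1` (`finrank_span_finset_le_card`). For `e ∈ H`:
`Pi.single (ε e) 1 = (v e.2 - v u₀) - (v e.1 - v u₀) ∈ W`, and these vectors are linearly independent (`ε` injective on `H`; e.g. `Pi.basisFun` or
`Pi.linearIndependent_single_one`), so `H.card ≤ finrank W`. `ι` is finite. -/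
theorem lin_edges {K ι U : Type} [Field K] [Finite ι] [DecidableEq ι] (s : Finset U) (v : U → ι → K)
    (H : Finset (U × U)) (ε : U × U → ι) (hinj : Set.InjOn ε (H : Set (U × U))) (hs : s.Nonempty)
    (hH : ∀ e ∈ H, e.1 ∈ s ∧ e.2 ∈ s ∧ v e.2 = v e.1 + Pi.single (ε e) (1 : K)) :
    H.card < s.card := by
  classical
  have : Fintype ι := Fintype.ofFinite ι
  obtain ⟨u₀, hu₀⟩ := hs
  set A : Finset (ι → K) := (s.erase u₀).image (fun u => v u - v u₀) with hA
  set W : Submodule K (ι → K) := Submodule.span K (A : Set (ι → K)) with hW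
  have hmem : ∀ u ∈ s, v u - v u₀ ∈ W := by
    intro u hu
    by_cases h : u = u₀
    · subst h
      rw [sub_self]
      exact W.zero_mem
    · apply Submodule.subset_span
      rw [hA]
      exact Finset.mem_coe.mpr (Finset.mem_image_of_mem _ (Finset.mem_erase.mpr ⟨h, hu⟩))
  have hsingle : ∀ e ∈ H, Pi.single (ε e) (1 : K) ∈ W := by
    intro e he
    obtain ⟨h1, h2, h3⟩ := hH e he
    have h4 : Pi.single (ε e) (1 : K) = (v e.2 - v u₀) - (v e.1 - v u₀) := by
      rw [h3]
      abel
    rw [h4]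
    exact W.sub_mem (hmem _ h2) (hmem _ h1)
  have hinj' : Function.Injective (fun e : H => ε e.1) := by
    intro e e' h
    exact Subtype.ext (hinj e.2 e'.2 h)
  have hli := (Pi.basisFun K ι).linearIndependent.comp _ hinj'
  have hli2 : LinearIndependent K (fun e : H => (⟨Pi.single (ε e.1) (1 : K), hsingle e.1 e.2⟩ : W)) := by
    apply LinearIndependent.of_comp W.subtype
    have h5 : (W.subtype ∘ fun e : H => (⟨Pi.single (ε e.1) (1 : K), hsingle e.1 e.2⟩ : W)) =
        (Pi.basisFun K ι) ∘ (fun e : H => ε e.1) := by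
      funext e
      simp
    rw [h5]
    exact hli
  have h6 := hli2.fintype_card_le_finrank
  rw [Fintype.card_coe] at h6
  have h7 : Module.finrank K W ≤ A.card := finrank_span_finset_le_card A
  have h8 : A.card ≤ (s.erase u₀).card := Finset.card_image_le
  have h9 := Finset.card_erase_lt_of_mem hu₀
  omega

end Pool.Agent.Lib.MP_4fb322_lc_h33
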