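import Pool.Agent.Lib.MP_4fb322_lc_h33.I12

set_option autoImplicit false

namespace Pool.Agent.Lib.MP_4fb322_lc_h33

open Set Filter Pool.Agent.Lib.MP_4fb322_lc_h7

private theorem two_mul_card_le {α β : Type} [DecidableEq β] (E : Finset α) (X : Finset β) (f : α → β)
    (hf : ∀ e ∈ E, f e ∈ X) (h2 : ∀ x ∈ X, ∃ e ∈ E, ∃ e' ∈ E, e ≠ e' ∧ f e = x ∧ f e' = x) :
    2 * X.card ≤ E.card := by
  rw [Finset.card_eq_sum_card_fiberwise (f := f) (s := E) (t := X) (fun e he => hf e he)]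
  have h : X.card • 2 ≤ ∑ b ∈ X, (E.filter (fun a => f a = b)).card := by
    apply Finset.card_nsmul_le_sum
    intro x hx
    obtain ⟨e, he, e', he', hne, h1, h3⟩ := h2 x hx
    apply Finset.one_lt_card.2
    exact ⟨e, by simp [he, h1], e', by simp [he', h3], hne⟩
  rw [smul_eq_mul] at h
  linarith

/-- Row I13. The lift has larger cores. Recipe: let `X', Y'` be a core of `lift R`, `X, Y` the images under `Prod.fst`. `X, Y` is a core of `R` (different neighbours
`(b, x + e_ab)`, `(b', x + e_ab')` of `(a, x)` have `b ≠ b'`; similarly on the right), so `k < X.card + Y.card ≤ X'.card + Y'.card`. If `X'.card + Y'.card ≤ k + 1` then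
`Prod.fst` is injective on `X'` and on `Y'`. `lin_edges` with `K = ZMod 2`, `U = (A × _) ⊕ (B × _)`, `s = X' ⊕ Y'` (`Finset.disjSum`), `v = second component`, `H` = edges of the lift
between `X'` and `Y'`, `ε (inl (a,_), inr (b,_)) = (a, b)`: `H.card < X'.card + Y'.card`. But every vertex has at least two edges of `H`: `2 X'.card ≤ H.card`,
`2 Y'.card ≤ H.card`. -/
theorem noCore_lift {A B : Type} [Finite A] [Finite B] (R : A → B → Prop) (k : ℕ)
    (h : NoCore R k) : NoCore (lift R) (k + 1) := by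
  classical
  intro X Y hC
  have hXc : (X.image Prod.fst).card ≤ X.card := Finset.card_image_le
  have hYc : (Y.image Prod.fst).card ≤ Y.card := Finset.card_image_le
  have hl : ∀ p ∈ X, ∃ q ∈ Y, ∃ q' ∈ Y, q ≠ q' ∧ q.1 ≠ q'.1 ∧ lift R p q ∧ lift R p q' := by
    intro p hp
    obtain ⟨q, hq, q', hq', hne, h1, h2⟩ := hC.left p hp
    refine ⟨q, hq, q', hq', hne, ?_, h1, h2⟩
    intro he
    apply hne
    apply Prod.ext he
    rw [h1.2, h2.2, he]
  have hr : ∀ q ∈ Y, ∃ p ∈ X, ∃ p' ∈ X, p ≠ p' ∧ p.1 ≠ p'.1 ∧ lift R p q ∧ lift R p' q := by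
    intro q hq
    obtain ⟨p, hp, p', hp', hne, h1, h2⟩ := hC.right q hq
    refine ⟨p, hp, p', hp', hne, ?_, h1, h2⟩
    intro he
    apply hne
    apply Prod.ext he
    have h3 := h1.2.symm.trans h2.2
    rw [he] at h3
    exact add_right_cancel h3
  have hcore : Core R (X.image Prod.fst) (Y.image Prod.fst) := by
    refine ⟨?_, ?_, ?_⟩
    · have h0 := hC.ne
      rcases Nat.eq_zero_or_pos X.card with h1 | h1
      · have h2 : 0 < Y.card := by omega
        have h3 : 0 < (Y.image Prod.fst).card := Finset.card_pos.2 ((Finset.card_pos.1 h2).image _)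
        omega
      · have h3 : 0 < (X.image Prod.fst).card := Finset.card_pos.2 ((Finset.card_pos.1 h1).image _)
        omega
    · intro a ha
      obtain ⟨p, hp, rfl⟩ := Finset.mem_image.1 ha
      obtain ⟨q, hq, q', hq', -, hne, h1, h2⟩ := hl p hp
      exact ⟨q.1, Finset.mem_image_of_mem _ hq, q'.1, Finset.mem_image_of_mem _ hq', hne, h1.1, h2.1⟩
    · intro b hb
      obtain ⟨q, hq, rfl⟩ := Finset.mem_image.1 hb
      obtain ⟨p, hp, p', hp', -, hne, h1, h2⟩ := hr q hq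
      exact ⟨p.1, Finset.mem_image_of_mem _ hp, p'.1, Finset.mem_image_of_mem _ hp', hne, h1.1, h2.1⟩
  have hk := h _ _ hcore
  by_contra hcon
  have hXe : (X.image Prod.fst).card = X.card := by omega
  have hYe : (Y.image Prod.fst).card = Y.card := by omega
  rw [Finset.card_image_iff] at hXe hYe
  -- base points
  obtain ⟨a₀, b₀⟩ : Nonempty A ∧ Nonempty B := by
    have h0 := hC.ne
    rcases Nat.eq_zero_or_pos X.card with h1 | h1
    · have h2 : 0 < Y.card := by omega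
      obtain ⟨q, hq⟩ := Finset.card_pos.1 h2
      obtain ⟨p, hp, -⟩ := hr q hq
      exact ⟨⟨p.1⟩, ⟨q.1⟩⟩
    · obtain ⟨p, hp⟩ := Finset.card_pos.1 h1
      obtain ⟨q, hq, -⟩ := hl p hp
      exact ⟨⟨p.1⟩, ⟨q.1⟩⟩
  obtain ⟨a₀⟩ := a₀
  obtain ⟨b₀⟩ := b₀
  obtain ⟨E, hE⟩ : ∃ E : Finset ((A × (A × B → ZMod 2)) × (B × (A × B → ZMod 2))),
      E = (X ×ˢ Y).filter (fun e => lift R e.1 e.2) := ⟨_, rfl⟩
  have hmem : ∀ e, e ∈ E ↔ (e.1 ∈ X ∧ e.2 ∈ Y) ∧ lift R e.1 e.2 := by
    intro e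
    rw [hE, Finset.mem_filter, Finset.mem_product]
  have hX2 : 2 * X.card ≤ E.card := by
    refine two_mul_card_le E X Prod.fst (fun e he => ((hmem e).1 he).1.1) ?_
    intro p hp
    obtain ⟨q, hq, q', hq', hne, -, h1, h2⟩ := hl p hp
    refine ⟨(p, q), (hmem _).2 ⟨⟨hp, hq⟩, h1⟩, (p, q'), (hmem _).2 ⟨⟨hp, hq'⟩, h2⟩, ?_, rfl, rfl⟩
    intro he
    exact hne (congrArg Prod.snd he)
  have hY2 : 2 * Y.card ≤ E.card := by
    refine two_mul_card_le E Y Prod.snd (fun e he => ((hmem e).1 he).1.2) ?_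
    intro q hq
    obtain ⟨p, hp, p', hp', hne, -, h1, h2⟩ := hr q hq
    refine ⟨(p, q), (hmem _).2 ⟨⟨hp, hq⟩, h1⟩, (p', q), (hmem _).2 ⟨⟨hp', hq⟩, h2⟩, ?_, rfl, rfl⟩
    intro he
    exact hne (congrArg Prod.fst he)
  -- the linear algebra
  obtain ⟨g, hg⟩ : ∃ g : (A × (A × B → ZMod 2)) × (B × (A × B → ZMod 2)) →
      ((A × (A × B → ZMod 2)) ⊕ (B × (A × B → ZMod 2))) × ((A × (A × B → ZMod 2)) ⊕ (B × (A × B → ZMod 2))),
      ∀ e, g e = (Sum.inl e.1, Sum.inr e.2) := ⟨fun e => (Sum.inl e.1, Sum.inr e.2), fun _ => rfl⟩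
  have hginj : Function.Injective g := by
    intro e e' hee
    rw [hg, hg] at hee
    exact Prod.ext (Sum.inl_injective (congrArg Prod.fst hee)) (Sum.inr_injective (congrArg Prod.snd hee))
  have hHcard : (E.image g).card = E.card := Finset.card_image_of_injective _ hginj
  have hs : (X.disjSum Y).card = X.card + Y.card := Finset.card_disjSum _ _
  have hlin := lin_edges (K := ZMod 2) (ι := A × B)
    (s := X.disjSum Y) (v := Sum.elim (fun p => p.2) (fun q => q.2)) (H := E.image g)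
    (ε := fun e => (Sum.elim (fun p => p.1) (fun _ => a₀) e.1, Sum.elim (fun _ => b₀) (fun q => q.1) e.2))
    ?_ ?_ ?_
  · rw [hHcard, hs] at hlin
    omega
  · intro e he e' he' hee
    rw [Finset.mem_coe, Finset.mem_image] at he he'
    obtain ⟨d, hd, rfl⟩ := he
    obtain ⟨d', hd', rfl⟩ := he'
    rw [hg, hg] at hee
    have h1 : d.1.1 = d'.1.1 := congrArg (fun z : A × B => z.1) hee
    have h2 : d.2.1 = d'.2.1 := congrArg (fun z : A × B => z.2) hee
    have h3 : d.1 = d'.1 := hXe ((hmem d).1 hd).1.1 ((hmem d').1 hd').1.1 h1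
    have h4 : d.2 = d'.2 := hYe ((hmem d).1 hd).1.2 ((hmem d').1 hd').1.2 h2
    rw [Prod.ext h3 h4]
  · rw [← Finset.card_pos, hs]
    exact hC.ne
  · intro e he
    rw [Finset.mem_image] at he
    obtain ⟨d, hd, rfl⟩ := he
    rw [hg]
    obtain ⟨⟨h1, h2⟩, h3⟩ := (hmem d).1 hd
    refine ⟨by simpa using h1, by simpa using h2, ?_⟩
    show d.2.2 = d.1.2 + Pi.single (d.1.1, d.2.1) (1 : ZMod 2)
    rw [h3.2]

end Pool.Agent.Lib.MP_4fb322_lc_h33
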