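import Pool.Agent.Lib.MP_4fb322_lc_h33.I13

set_option autoImplicit false

namespace Pool.Agent.Lib.MP_4fb322_lc_h33

open Set Filter Pool.Agent.Lib.MP_4fb322_lc_h7

/-- Row I14. Recipe: induction on `k`. `k = 0`: `A = B = Fin d`, `R = True` (a core is nonempty). Step: the lift; `(a, x)` has the neighbours `(b, x + e_ab)`, `R a b`. -/
theorem exists_reg (d : ℕ) (hd : 0 < d) (k : ℕ) : ∃ (A B : Type) (_ : Fintype A) (_ : Fintype B)
    (R : A → B → Prop), Fintype.card A = Fintype.card B ∧ 0 < Fintype.card A ∧
      (∀ a, {b | R a b}.ncard = d) ∧ NoCore R k := by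
  classical
  induction k with
  | zero =>
    refine ⟨Fin d, Fin d, inferInstance, inferInstance, fun _ _ => True, rfl, ?_, ?_, ?_⟩
    · simpa using hd
    · intro a
      have h : {b : Fin d | (fun _ _ : Fin d => True) a b} = Set.univ := by
        ext b; simp
      rw [h, Set.ncard_univ, Nat.card_eq_fintype_card, Fintype.card_fin]
    · intro X Y h
      exact h.ne
  | succ k ih =>
    obtain ⟨A, B, iA, iB, R, h1, h2, h3, h4⟩ := ih
    have hne : Nonempty A := Fintype.card_pos_iff.1 h2
    refine ⟨A × (A × B → ZMod 2), B × (A × B → ZMod 2), inferInstance, inferInstance, lift R,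
      ?_, ?_, ?_, noCore_lift R k h4⟩
    · rw [Fintype.card_prod, Fintype.card_prod, h1]
    · rw [Fintype.card_prod]
      exact Nat.mul_pos h2 (Fintype.card_pos_iff.2 inferInstance)
    · rintro ⟨a, x⟩
      have h : {q : B × (A × B → ZMod 2) | lift R (a, x) q}
          = (fun b : B => ((b, x + Pi.single (a, b) 1) : B × (A × B → ZMod 2))) '' {b | R a b} := by
        ext q
        obtain ⟨b, y⟩ := q
        simp only [lift, Set.mem_ofPred_eq, Set.mem_image, Prod.mk.injEq]
        constructor
        · rintro ⟨h5, h6⟩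
          refine ⟨b, h5, rfl, ?_⟩
          rw [h6]
        · rintro ⟨b', h5, h6, h7⟩
          subst h6
          refine ⟨h5, ?_⟩
          rw [← h7]
      rw [h, Set.ncard_image_of_injective _ (fun b b' hb => (Prod.mk.inj hb).1)]
      exact h3 a

end Pool.Agent.Lib.MP_4fb322_lc_h33
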