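import Pool.Agent.Lib.MP_4fb322_lc_h33.IPDefs

set_option autoImplicit false

namespace Pool.Agent.Lib.MP_4fb322_lc_h33

open Set Filter Pool.Agent.Lib.MP_4fb322_lc_h7

private theorem I15_fin {A B : Type} (R : A → B → Prop) (X : Finset A) (Y : Finset B) :
    {p : A × B | p.1 ∈ X ∧ p.2 ∈ Y ∧ R p.1 p.2}.Finite :=
  (X ×ˢ Y).finite_toSet.subset fun p hp => by
    rw [Finset.mem_coe, Finset.mem_product]
    exact ⟨hp.1, hp.2.1⟩

/-- Row I15. Recipe: induction on `X.card + Y.card`: `X, Y` is not a core (or empty), so some vertex has at most one neighbour on the other side; remove it. -/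
theorem sparse_of_noCore {A B : Type} (R : A → B → Prop) (k : ℕ) (h : NoCore R k)
    (X : Finset A) (Y : Finset B) (hXY : X.card + Y.card ≤ k) :
    {p : A × B | p.1 ∈ X ∧ p.2 ∈ Y ∧ R p.1 p.2}.ncard ≤ X.card + Y.card := by
  classical
  obtain ⟨n, hn⟩ : ∃ n, X.card + Y.card = n := ⟨_, rfl⟩
  induction n generalizing X Y with
  | zero =>
    have hX : X = ∅ := Finset.card_eq_zero.1 (by omega)
    have he : {p : A × B | p.1 ∈ X ∧ p.2 ∈ Y ∧ R p.1 p.2} = ∅ := by
      ext p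
      simp [hX]
    rw [he, Set.ncard_empty]
    exact Nat.zero_le _
  | succ n ih =>
    by_cases hL : ∀ a ∈ X, ∃ b ∈ Y, ∃ b' ∈ Y, b ≠ b' ∧ R a b ∧ R a b'
    · by_cases hR : ∀ b ∈ Y, ∃ a ∈ X, ∃ a' ∈ X, a ≠ a' ∧ R a b ∧ R a' b
      · have := h X Y ⟨by omega, hL, hR⟩
        omega
      · push Not at hR
        obtain ⟨b, hb, hb2⟩ := hR
        have hc : (Y.erase b).card + 1 = Y.card := Finset.card_erase_add_one hb
        have ih' := ih X (Y.erase b) (by omega) (by omega)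
        have hone : {p : A × B | p.1 ∈ X ∧ p.2 = b ∧ R p.1 p.2}.ncard ≤ 1 := by
          rw [Set.ncard_le_one ((I15_fin R X Y).subset fun p hp => ⟨hp.1, by rw [hp.2.1]; exact hb, hp.2.2⟩)]
          rintro ⟨x, y⟩ ⟨h1, h2, h3⟩ ⟨x', y'⟩ ⟨h1', h2', h3'⟩
          simp only at h1 h2 h3 h1' h2' h3'
          subst h2
          subst h2'
          by_contra hne
          have hxx : x ≠ x' := fun he => hne (by rw [he])
          exact hb2 x h1 x' h1' hxx h3 h3'
        have hsub : {p : A × B | p.1 ∈ X ∧ p.2 ∈ Y ∧ R p.1 p.2} ⊆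
            {p : A × B | p.1 ∈ X ∧ p.2 ∈ Y.erase b ∧ R p.1 p.2} ∪
              {p : A × B | p.1 ∈ X ∧ p.2 = b ∧ R p.1 p.2} := by
          rintro p ⟨h1, h2, h3⟩
          by_cases he : p.2 = b
          · exact Or.inr ⟨h1, he, h3⟩
          · exact Or.inl ⟨h1, Finset.mem_erase.2 ⟨he, h2⟩, h3⟩
        have h5 := Set.ncard_le_ncard hsub ((I15_fin R X (Y.erase b)).union
          ((I15_fin R X Y).subset fun p hp => ⟨hp.1, by rw [hp.2.1]; exact hb, hp.2.2⟩))
        have h6 := Set.ncard_union_le {p : A × B | p.1 ∈ X ∧ p.2 ∈ Y.erase b ∧ R p.1 p.2}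
          {p : A × B | p.1 ∈ X ∧ p.2 = b ∧ R p.1 p.2}
        omega
    · push Not at hL
      obtain ⟨a, ha, ha2⟩ := hL
      have hc : (X.erase a).card + 1 = X.card := Finset.card_erase_add_one ha
      have ih' := ih (X.erase a) Y (by omega) (by omega)
      have hone : {p : A × B | p.1 = a ∧ p.2 ∈ Y ∧ R p.1 p.2}.ncard ≤ 1 := by
        rw [Set.ncard_le_one ((I15_fin R X Y).subset fun p hp => ⟨by rw [hp.1]; exact ha, hp.2⟩)]
        rintro ⟨x, y⟩ ⟨h1, h2, h3⟩ ⟨x', y'⟩ ⟨h1', h2', h3'⟩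
        simp only at h1 h2 h3 h1' h2' h3'
        subst h1
        subst h1'
        by_contra hne
        have hyy : y ≠ y' := fun he => hne (by rw [he])
        exact ha2 y h2 y' h2' hyy h3 h3'
      have hsub : {p : A × B | p.1 ∈ X ∧ p.2 ∈ Y ∧ R p.1 p.2} ⊆
          {p : A × B | p.1 ∈ X.erase a ∧ p.2 ∈ Y ∧ R p.1 p.2} ∪
            {p : A × B | p.1 = a ∧ p.2 ∈ Y ∧ R p.1 p.2} := by
        rintro p ⟨h1, h2, h3⟩
        by_cases he : p.1 = a
        · exact Or.inr ⟨he, h2, h3⟩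
        · exact Or.inl ⟨Finset.mem_erase.2 ⟨he, h1⟩, h2, h3⟩
      have h5 := Set.ncard_le_ncard hsub ((I15_fin R (X.erase a) Y).union
        ((I15_fin R X Y).subset fun p hp => ⟨by rw [hp.1]; exact ha, hp.2⟩))
      have h6 := Set.ncard_union_le {p : A × B | p.1 ∈ X.erase a ∧ p.2 ∈ Y ∧ R p.1 p.2}
        {p : A × B | p.1 = a ∧ p.2 ∈ Y ∧ R p.1 p.2}
      omega

/-- no `C₄`: otherwise `{a, a'}`, `{b, b'}` is a core -/
theorem c4_of_noCore {A B : Type} (R : A → B → Prop) (k : ℕ) (hk : 4 ≤ k) (h : NoCore R k)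
    (a a' : A) (haa : a ≠ a') (b b' : B) (h1 : R a b) (h2 : R a b') (h3 : R a' b)
    (h4 : R a' b') : b = b' := by
  classical
  by_contra hbb
  have hX : ({a, a'} : Finset A).card = 2 := Finset.card_pair haa
  have hY : ({b, b'} : Finset B).card = 2 := Finset.card_pair hbb
  have hc : Core R ({a, a'} : Finset A) ({b, b'} : Finset B) := by
    refine ⟨by omega, ?_, ?_⟩
    · intro x hx
      refine ⟨b, by simp, b', by simp, hbb, ?_⟩
      rcases Finset.mem_insert.1 hx with hx | hx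
      · subst hx
        exact ⟨h1, h2⟩
      · rw [Finset.mem_singleton] at hx
        subst hx
        exact ⟨h3, h4⟩
    · intro y hy
      refine ⟨a, by simp, a', by simp, haa, ?_⟩
      rcases Finset.mem_insert.1 hy with hy | hy
      · subst hy
        exact ⟨h1, h3⟩
      · rw [Finset.mem_singleton] at hy
        subst hy
        exact ⟨h2, h4⟩
  have := h _ _ hc
  omega

end Pool.Agent.Lib.MP_4fb322_lc_h33
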