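import Pool.Agent.Lib.MP_4fb322_lc_h33.I14

set_option autoImplicit false

namespace Pool.Agent.Lib.MP_4fb322_lc_h33

open Set Filter Pool.Agent.Lib.MP_4fb322_lc_h7

/-- Row I16. The same on `ℕ` (transport by `Fintype.equivFin`). -/
theorem exists_regN (d : ℕ) (hd : 0 < d) (k : ℕ) : ∃ (n : ℕ) (R : ℕ → Finset ℕ), 0 < n ∧
    (∀ a, n ≤ a → R a = ∅) ∧ (∀ a, ∀ b ∈ R a, b < n) ∧ (∀ a, a < n → (R a).card = d) ∧
      NoCore (fun a b => b ∈ R a) k := by
  classical
  obtain ⟨A, B, iA, iB, R, hAB, hA, hdeg, hno⟩ := exists_reg d hd k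
  obtain ⟨eA⟩ : Nonempty (A ≃ Fin (Fintype.card A)) := ⟨Fintype.equivFin A⟩
  obtain ⟨eB⟩ : Nonempty (B ≃ Fin (Fintype.card A)) := ⟨Fintype.equivFinOfCardEq hAB.symm⟩
  have hmem : ∀ a b : ℕ, (b ∈ (if h : a < Fintype.card A then
      ((Finset.univ.filter (fun y : B => R (eA.symm ⟨a, h⟩) y)).image (fun y => (eB y : ℕ))) else
      (∅ : Finset ℕ))) ↔ ∃ (h : a < Fintype.card A) (h' : b < Fintype.card A),
        R (eA.symm ⟨a, h⟩) (eB.symm ⟨b, h'⟩) := by
    intro a b
    by_cases h : a < Fintype.card A
    · rw [dif_pos h]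
      simp only [Finset.mem_image, Finset.mem_filter, Finset.mem_univ, true_and]
      constructor
      · rintro ⟨y, hy, rfl⟩
        refine ⟨h, (eB y).2, ?_⟩
        simpa using hy
      · rintro ⟨_, h', hR⟩
        exact ⟨_, hR, by simp⟩
    · rw [dif_neg h]
      simp only [Finset.notMem_empty, false_iff]
      rintro ⟨h1, _⟩
      exact h h1
  refine ⟨Fintype.card A, fun a => if h : a < Fintype.card A then
      ((Finset.univ.filter (fun y : B => R (eA.symm ⟨a, h⟩) y)).image (fun y => (eB y : ℕ))) else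
      (∅ : Finset ℕ), hA, ?_, ?_, ?_, ?_⟩
  · intro a ha
    simp only
    rw [dif_neg (by omega)]
  · intro a b hb
    obtain ⟨_, h', _⟩ := (hmem a b).1 hb
    exact h'
  · intro a ha
    simp only
    rw [dif_pos ha, Finset.card_image_of_injective]
    · rw [← hdeg (eA.symm ⟨a, ha⟩), Set.ncard_eq_toFinset_card']
      congr 1
      ext y
      simp
    · intro y y' hyy
      exact eB.injective (Fin.ext hyy)
  · intro X Y hXY
    -- pull back
    have hXlt : ∀ a ∈ X, a < Fintype.card A := by
      intro a ha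
      obtain ⟨b, _, _, _, _, hR, _⟩ := hXY.left a ha
      obtain ⟨h, _, _⟩ := (hmem a b).1 hR
      exact h
    have hYlt : ∀ b ∈ Y, b < Fintype.card A := by
      intro b hb
      obtain ⟨a, _, _, _, _, hR, _⟩ := hXY.right b hb
      obtain ⟨_, h, _⟩ := (hmem a b).1 hR
      exact h
    have hXc : (Finset.univ.filter (fun x : A => ((eA x : ℕ) ∈ X))).card = X.card := by
      rw [← Finset.card_image_of_injective (s := Finset.univ.filter (fun x : A => ((eA x : ℕ) ∈ X)))
        (f := fun x : A => (eA x : ℕ)) (fun x y hxy => eA.injective (Fin.ext hxy))]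
      congr 1
      ext a
      simp only [Finset.mem_image, Finset.mem_filter, Finset.mem_univ, true_and]
      constructor
      · rintro ⟨x, hx, rfl⟩
        exact hx
      · intro ha
        exact ⟨eA.symm ⟨a, hXlt a ha⟩, by simpa using ha, by simp⟩
    have hYc : (Finset.univ.filter (fun y : B => ((eB y : ℕ) ∈ Y))).card = Y.card := by
      rw [← Finset.card_image_of_injective (s := Finset.univ.filter (fun y : B => ((eB y : ℕ) ∈ Y)))
        (f := fun y : B => (eB y : ℕ)) (fun x y hxy => eB.injective (Fin.ext hxy))]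
      congr 1
      ext a
      simp only [Finset.mem_image, Finset.mem_filter, Finset.mem_univ, true_and]
      constructor
      · rintro ⟨x, hx, rfl⟩
        exact hx
      · intro ha
        exact ⟨eB.symm ⟨a, hYlt a ha⟩, by simpa using ha, by simp⟩
    have hcore : Core R (Finset.univ.filter (fun x : A => ((eA x : ℕ) ∈ X)))
        (Finset.univ.filter (fun y : B => ((eB y : ℕ) ∈ Y))) := by
      refine ⟨?_, ?_, ?_⟩
      · rw [hXc, hYc]
        exact hXY.ne
      · intro x hx
        simp only [Finset.mem_filter, Finset.mem_univ, true_and] at hx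
        obtain ⟨b, hb, b', hb', hne, hR, hR'⟩ := hXY.left _ hx
        obtain ⟨h1, h2, h3⟩ := (hmem _ _).1 hR
        obtain ⟨h1', h2', h3'⟩ := (hmem _ _).1 hR'
        refine ⟨eB.symm ⟨b, h2⟩, by simpa using hb, eB.symm ⟨b', h2'⟩, by simpa using hb', ?_,
          by simpa using h3, by simpa using h3'⟩
        intro he
        have := eB.symm.injective he
        exact hne (by simpa using this)
      · intro y hy
        simp only [Finset.mem_filter, Finset.mem_univ, true_and] at hy
        obtain ⟨a, ha, a', ha', hne, hR, hR'⟩ := hXY.right _ hy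
        obtain ⟨h1, h2, h3⟩ := (hmem _ _).1 hR
        obtain ⟨h1', h2', h3'⟩ := (hmem _ _).1 hR'
        refine ⟨eA.symm ⟨a, h1⟩, by simpa using ha, eA.symm ⟨a', h1'⟩, by simpa using ha', ?_,
          by simpa using h3, by simpa using h3'⟩
        intro he
        have := eA.symm.injective he
        exact hne (by simpa using this)
    have := hno _ _ hcore
    rw [hXc, hYc] at this
    exact this

end Pool.Agent.Lib.MP_4fb322_lc_h33
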