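import Pool.Agent.Lib.MP_4fb322_lc_h33.I16

set_option autoImplicit false

namespace Pool.Agent.Lib.MP_4fb322_lc_h33

open Set Filter Pool.Agent.Lib.MP_4fb322_lc_h7

private theorem i17_mem (R : ℕ → ℕ → Finset ℕ) (i j : ℕ) :
    j ∈ (R (Nat.unpair i).1 (Nat.unpair i).2).image (Nat.pair (Nat.unpair i).1) ↔
      (Nat.unpair j).1 = (Nat.unpair i).1 ∧ (Nat.unpair j).2 ∈ R (Nat.unpair i).1 (Nat.unpair i).2 := by
  rw [Finset.mem_image]
  constructor
  · rintro ⟨b, hb, rfl⟩
    rw [Nat.unpair_pair]
    exact ⟨rfl, hb⟩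
  · rintro ⟨h1, h2⟩
    exact ⟨(Nat.unpair j).2, h2, by rw [← h1, Nat.pair_unpair]⟩

private theorem i17_inj {i j : ℕ} (h1 : (Nat.unpair i).1 = (Nat.unpair j).1)
    (h2 : (Nat.unpair i).2 = (Nat.unpair j).2) : i = j := by
  rw [← Nat.pair_unpair i, ← Nat.pair_unpair j, h1, h2]

/-- Row I17. Disjoint union of the graphs of all levels. Recipe: for every `h` take `n h`, `R h` from `exists_regN 10 _ (h + 4)`; `lv i = (Nat.unpair i).1`,
`E (Nat.pair h a) = (R h a).image (Nat.pair h)`. A core `X, Y` (for the relation restricted to level `≥ g`) contains a vertex of some level `h ≥ g`; the vertices of `X, Y` of level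
`h`, unpaired, are a core for `R h`: more than `h + 4 ≥ g + 4` vertices. Last part: `X = Y = {Nat.pair g a | a < n g}`: `2 n` vertices, `10 n` edges. -/
theorem exists_union : ∃ (E : ℕ → Finset ℕ) (lv : ℕ → ℕ),
    (∀ g, NoCore (fun i j => j ∈ E i ∧ g ≤ lv i ∧ g ≤ lv j) (g + 4)) ∧
    ∀ g, ∃ X Y : Finset ℕ, (∀ i ∈ X, g ≤ lv i) ∧ (∀ j ∈ Y, g ≤ lv j) ∧
      4 * (X.card + Y.card) < ed E X Y := by
  choose n R hn0 hR0 hRlt hRcard hRcore using fun h : ℕ => exists_regN 10 (by norm_num) (h + 4)
  refine ⟨fun i => (R (Nat.unpair i).1 (Nat.unpair i).2).image (Nat.pair (Nat.unpair i).1),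
    fun i => (Nat.unpair i).1, ?_, ?_⟩
  · intro g X Y hc
    have hX : X.Nonempty := by
      rcases X.eq_empty_or_nonempty with hX | hX
      · have h1 : 0 < Y.card := by
          have := hc.ne
          rw [hX, Finset.card_empty, zero_add] at this
          exact this
        obtain ⟨b, hb⟩ := Finset.card_pos.1 h1
        obtain ⟨a, ha, -⟩ := hc.right b hb
        exact ⟨a, ha⟩
      · exact hX
    obtain ⟨i₀, hi₀⟩ := hX
    obtain ⟨_, _, _, _, _, ⟨_, hg, _⟩, _⟩ := hc.left i₀ hi₀
    have hg' : g ≤ (Nat.unpair i₀).1 := hg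
    generalize hh : (Nat.unpair i₀).1 = h at hg'
    have key := hRcore h ((X.filter (fun i => (Nat.unpair i).1 = h)).image (fun i => (Nat.unpair i).2))
      ((Y.filter (fun i => (Nat.unpair i).1 = h)).image (fun i => (Nat.unpair i).2)) ?_
    · have c1 : ((X.filter (fun i => (Nat.unpair i).1 = h)).image (fun i => (Nat.unpair i).2)).card ≤
          X.card := Finset.card_image_le.trans (Finset.card_filter_le _ _)
      have c2 : ((Y.filter (fun i => (Nat.unpair i).1 = h)).image (fun i => (Nat.unpair i).2)).card ≤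
          Y.card := Finset.card_image_le.trans (Finset.card_filter_le _ _)
      omega
    · refine ⟨?_, ?_, ?_⟩
      · have : 0 < ((X.filter (fun i => (Nat.unpair i).1 = h)).image
            (fun i => (Nat.unpair i).2)).card :=
          Finset.card_pos.2 ⟨_, Finset.mem_image.2 ⟨i₀, Finset.mem_filter.2 ⟨hi₀, hh⟩, rfl⟩⟩
        omega
      · intro a ha
        obtain ⟨i, hi, rfl⟩ := Finset.mem_image.1 ha
        obtain ⟨hiX, hih⟩ := Finset.mem_filter.1 hi
        obtain ⟨b, hb, b', hb', hbb, ⟨k1, -, -⟩, ⟨k1', -, -⟩⟩ := hc.left i hiX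
        rw [i17_mem, hih] at k1 k1'
        refine ⟨(Nat.unpair b).2, Finset.mem_image.2 ⟨b, Finset.mem_filter.2 ⟨hb, k1.1⟩, rfl⟩,
          (Nat.unpair b').2, Finset.mem_image.2 ⟨b', Finset.mem_filter.2 ⟨hb', k1'.1⟩, rfl⟩, ?_,
          k1.2, k1'.2⟩
        intro e
        exact hbb (i17_inj (k1.1.trans k1'.1.symm) e)
      · intro b hb
        obtain ⟨j, hj, rfl⟩ := Finset.mem_image.1 hb
        obtain ⟨hjY, hjh⟩ := Finset.mem_filter.1 hj
        obtain ⟨a, ha, a', ha', haa, ⟨k1, -, -⟩, ⟨k1', -, -⟩⟩ := hc.right j hjY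
        rw [i17_mem, hjh] at k1 k1'
        obtain ⟨k2, k3⟩ := k1
        obtain ⟨k2', k3'⟩ := k1'
        rw [← k2] at k3
        rw [← k2'] at k3'
        refine ⟨(Nat.unpair a).2, Finset.mem_image.2 ⟨a, Finset.mem_filter.2 ⟨ha, k2.symm⟩, rfl⟩,
          (Nat.unpair a').2, Finset.mem_image.2 ⟨a', Finset.mem_filter.2 ⟨ha', k2'.symm⟩, rfl⟩, ?_,
          k3, k3'⟩
        intro e
        exact haa (i17_inj (k2.symm.trans k2') e)
  · intro g
    have hinj : Function.Injective (Nat.pair g) := fun a b hab => (Nat.pair_eq_pair.1 hab).2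
    refine ⟨(Finset.range (n g)).image (Nat.pair g), (Finset.range (n g)).image (Nat.pair g),
      ?_, ?_, ?_⟩
    · intro i hi
      obtain ⟨a, -, rfl⟩ := Finset.mem_image.1 hi
      simp
    · intro i hi
      obtain ⟨a, -, rfl⟩ := Finset.mem_image.1 hi
      simp
    · rw [Finset.card_image_of_injective _ hinj, Finset.card_range]
      have hed : ed (fun i => (R (Nat.unpair i).1 (Nat.unpair i).2).image (Nat.pair (Nat.unpair i).1))
          ((Finset.range (n g)).image (Nat.pair g)) ((Finset.range (n g)).image (Nat.pair g)) =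
          n g * 10 := by
        unfold ed
        rw [Finset.card_filter, Finset.sum_product]
        have : ∀ i ∈ (Finset.range (n g)).image (Nat.pair g),
            ∑ j ∈ (Finset.range (n g)).image (Nat.pair g), (if j ∈
              (R (Nat.unpair i).1 (Nat.unpair i).2).image (Nat.pair (Nat.unpair i).1) then 1 else 0)
              = 10 := by
          intro i hi
          obtain ⟨a, ha, rfl⟩ := Finset.mem_image.1 hi
          rw [← Finset.card_filter, Nat.unpair_pair]
          have e : ((Finset.range (n g)).image (Nat.pair g)).filter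
              (fun j => j ∈ (R g a).image (Nat.pair g)) = (R g a).image (Nat.pair g) := by
            ext j
            rw [Finset.mem_filter]
            constructor
            · exact fun h => h.2
            · intro h
              refine ⟨?_, h⟩
              obtain ⟨b, hb, rfl⟩ := Finset.mem_image.1 h
              exact Finset.mem_image.2 ⟨b, Finset.mem_range.2 (hRlt g a b hb), rfl⟩
          simp only [e]
          rw [Finset.card_image_of_injective _ hinj, hRcard g a (Finset.mem_range.1 ha)]
        rw [Finset.sum_congr rfl this, Finset.sum_const, Finset.card_image_of_injective _ hinj,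
          Finset.card_range, smul_eq_mul]
      rw [hed]
      have := hn0 g
      omega

end Pool.Agent.Lib.MP_4fb322_lc_h33
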