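import Pool.Agent.Lib.MP_4fb322_lc_h33.I15
import Pool.Agent.Lib.MP_4fb322_lc_h33.I17

set_option autoImplicit false

namespace Pool.Agent.Lib.MP_4fb322_lc_h33

open Set Filter Pool.Agent.Lib.MP_4fb322_lc_h7

/-- Row I18. -/
theorem exists_E : ∃ (E : ℕ → Finset ℕ) (lv : ℕ → ℕ), (∀ g, Spa E lv g) ∧ C4F E ∧
    ∀ g, ∃ X Y : Finset ℕ, (∀ i ∈ X, g ≤ lv i) ∧ (∀ j ∈ Y, g ≤ lv j) ∧
      4 * (X.card + Y.card) < ed E X Y := by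
  obtain ⟨E, lv, hN, hlast⟩ := exists_union
  refine ⟨E, lv, ?_, ?_, hlast⟩
  · intro g X Y hX hY hXY
    have h := sparse_of_noCore _ _ (hN g) X Y (by omega)
    have e : {p : ℕ × ℕ | p.1 ∈ X ∧ p.2 ∈ Y ∧ (p.2 ∈ E p.1 ∧ g ≤ lv p.1 ∧ g ≤ lv p.2)} =
        (((X ×ˢ Y).filter (fun p => p.2 ∈ E p.1) : Finset (ℕ × ℕ)) : Set (ℕ × ℕ)) := by
      ext p
      simp only [Set.mem_ofPred_eq, Finset.coe_filter, Finset.mem_product]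
      constructor
      · rintro ⟨h1, h2, h3, _, _⟩
        exact ⟨⟨h1, h2⟩, h3⟩
      · rintro ⟨⟨h1, h2⟩, h3⟩
        exact ⟨h1, h2, h3, hX _ h1, hY _ h2⟩
    rw [e, Set.ncard_coe_finset] at h
    exact h
  · intro i i' hii
    rw [Finset.card_le_one]
    intro b hb b' hb'
    rw [Finset.mem_inter] at hb hb'
    exact c4_of_noCore _ 4 le_rfl (hN 0) i i' hii b b' ⟨hb.1, Nat.zero_le _, Nat.zero_le _⟩
      ⟨hb'.1, Nat.zero_le _, Nat.zero_le _⟩ ⟨hb.2, Nat.zero_le _, Nat.zero_le _⟩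
      ⟨hb'.2, Nat.zero_le _, Nat.zero_le _⟩

end Pool.Agent.Lib.MP_4fb322_lc_h33
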