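import Pool.Agent.Lib.MP_4fb322_lc_h33.IPDefs

set_option autoImplicit false

namespace Pool.Agent.Lib.MP_4fb322_lc_h33

open Set Filter Pool.Agent.Lib.MP_4fb322_lc_h7

private theorem ed_eq_sum (E : ℕ → Finset ℕ) (X Y : Finset ℕ) :
    ed E X Y = ∑ i ∈ X, (E i ∩ Y).card := by
  classical
  unfold ed
  rw [Finset.card_filter, Finset.sum_product]
  refine Finset.sum_congr rfl fun i _ => ?_
  rw [← Finset.card_filter]
  congr 1
  ext j
  simp only [Finset.mem_filter, Finset.mem_inter]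
  exact and_comm

private theorem nested_aux (E : ℕ → Finset ℕ) (X Y : Finset ℕ) (u w : ℕ → ℕ) (P Q : Prop)
    (hne : ∀ i ∈ X, ∀ j ∈ Y, u i ≠ w j) (h1 : ∀ i ∈ X, ∀ j ∈ Y, u i < w j → (j ∈ E i ↔ P))
    (h2 : ∀ i ∈ X, ∀ j ∈ Y, w j < u i → (j ∈ E i ↔ Q)) (i i' : ℕ) (hi : i ∈ X) (hi' : i' ∈ X)
    (hle : u i ≤ u i') : E i ∩ Y ⊆ E i' ∩ Y ∨ E i' ∩ Y ⊆ E i ∩ Y := by
  classical
  by_cases hPQ : P → Q
  · left
    intro j hj
    rw [Finset.mem_inter] at hj ⊢
    refine ⟨?_, hj.2⟩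
    rcases lt_or_gt_of_ne (hne i hi j hj.2) with h | h
    · have hP : P := (h1 i hi j hj.2 h).1 hj.1
      rcases lt_or_gt_of_ne (hne i' hi' j hj.2) with h' | h'
      · exact (h1 i' hi' j hj.2 h').2 hP
      · exact (h2 i' hi' j hj.2 h').2 (hPQ hP)
    · have hQ : Q := (h2 i hi j hj.2 h).1 hj.1
      exact (h2 i' hi' j hj.2 (lt_of_lt_of_le h hle)).2 hQ
  · right
    have hP : P := by
      by_contra hP
      exact hPQ (fun h => absurd h hP)
    intro j hj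
    rw [Finset.mem_inter] at hj ⊢
    refine ⟨?_, hj.2⟩
    rcases lt_or_gt_of_ne (hne i hi j hj.2) with h | h
    · exact (h1 i hi j hj.2 h).2 hP
    · have hQ : Q := (h2 i' hi' j hj.2 (lt_of_lt_of_le h hle)).1 hj.1
      exact (h2 i hi j hj.2 h).2 hQ

/-- Row I19. Nested neighbourhoods. Recipe: for `i, i' ∈ X` the sets `E i ∩ Y`, `E i' ∩ Y` are comparable (four cases for `P, Q`; both are final or initial segments of `Y` with
respect to `w`, or everything, or nothing), so by `C4F` at most one `i` has `(E i ∩ Y).card ≥ 2`; `ed E X Y = ∑ i ∈ X, (E i ∩ Y).card ≤ X.card + Y.card`. -/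
theorem nested (E : ℕ → Finset ℕ) (hC4 : C4F E) (X Y : Finset ℕ) (u w : ℕ → ℕ) (P Q : Prop)
    (hne : ∀ i ∈ X, ∀ j ∈ Y, u i ≠ w j) (h1 : ∀ i ∈ X, ∀ j ∈ Y, u i < w j → (j ∈ E i ↔ P))
    (h2 : ∀ i ∈ X, ∀ j ∈ Y, w j < u i → (j ∈ E i ↔ Q)) : ed E X Y ≤ X.card + Y.card := by
  classical
  rw [ed_eq_sum]
  have hcomp : ∀ i ∈ X, ∀ i' ∈ X, E i ∩ Y ⊆ E i' ∩ Y ∨ E i' ∩ Y ⊆ E i ∩ Y := by
    intro i hi i' hi'
    rcases le_total (u i) (u i') with h | h
    · exact nested_aux E X Y u w P Q hne h1 h2 i i' hi hi' h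
    · exact (nested_aux E X Y u w P Q hne h1 h2 i' i hi' hi h).symm
  have hsmall : ∀ i ∈ X, ∀ i' ∈ X, i ≠ i' → (E i ∩ Y).card ≤ 1 ∨ (E i' ∩ Y).card ≤ 1 := by
    intro i hi i' hi' hne'
    rcases hcomp i hi i' hi' with h | h
    · left
      refine le_trans (Finset.card_le_card ?_) (hC4 i i' hne')
      intro j hj
      rw [Finset.mem_inter]
      exact ⟨(Finset.mem_inter.1 hj).1, (Finset.mem_inter.1 (h hj)).1⟩
    · right
      refine le_trans (Finset.card_le_card ?_) (hC4 i i' hne')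
      intro j hj
      rw [Finset.mem_inter]
      exact ⟨(Finset.mem_inter.1 (h hj)).1, (Finset.mem_inter.1 hj).1⟩
  by_cases hall : ∀ i ∈ X, (E i ∩ Y).card ≤ 1
  · calc ∑ i ∈ X, (E i ∩ Y).card ≤ ∑ i ∈ X, 1 := Finset.sum_le_sum hall
      _ = X.card := by simp
      _ ≤ X.card + Y.card := Nat.le_add_right _ _
  · push Not at hall
    obtain ⟨i₀, hi₀, hi₀'⟩ := hall
    rw [← Finset.add_sum_erase X _ hi₀]
    have hY : (E i₀ ∩ Y).card ≤ Y.card := Finset.card_le_card Finset.inter_subset_right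
    have hrest : ∑ i ∈ X.erase i₀, (E i ∩ Y).card ≤ ∑ i ∈ X.erase i₀, 1 := by
      refine Finset.sum_le_sum fun i hi => ?_
      rcases hsmall i (Finset.mem_of_mem_erase hi) i₀ hi₀ (Finset.ne_of_mem_erase hi) with h | h
      · exact h
      · omega
    have hc : ∑ i ∈ X.erase i₀, 1 ≤ X.card := by
      rw [Finset.sum_const, smul_eq_mul, mul_one]
      exact Finset.card_le_card (Finset.erase_subset _ _)
    omega

end Pool.Agent.Lib.MP_4fb322_lc_h33
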