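import Pool.Agent.Lib.MP_4fb322_lc_h33.IPDefs

set_option autoImplicit false

namespace Pool.Agent.Lib.MP_4fb322_lc_h33

open Set Filter Pool.Agent.Lib.MP_4fb322_lc_h7

private theorem ed_eq_sum (E : ℕ → Finset ℕ) (X Y : Finset ℕ) :
    ed E X Y = ∑ i ∈ X, (E i ∩ Y).card := by
  classical
  unfold ed
  rw [Finset.card_filter, Finset.sum_product]
  apply Finset.sum_congr rfl
  intro i _
  rw [← Finset.card_filter]
  congr 1
  ext j
  simp [and_comm]

private theorem pair_le (E : ℕ → Finset ℕ) (hC4 : C4F E) (Y : Finset ℕ) (i i' : ℕ) (h : i ≠ i') :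
    (E i ∩ Y).card + (E i' ∩ Y).card ≤ Y.card + 1 := by
  classical
  have h1 := Finset.card_union_add_card_inter (E i ∩ Y) (E i' ∩ Y)
  have h2 : (E i ∩ Y ∪ E i' ∩ Y).card ≤ Y.card :=
    Finset.card_le_card (Finset.union_subset Finset.inter_subset_right Finset.inter_subset_right)
  have h3 : ((E i ∩ Y) ∩ (E i' ∩ Y)).card ≤ 1 := by
    refine le_trans (Finset.card_le_card ?_) (hC4 i i' h)
    intro x hx
    simp only [Finset.mem_inter] at hx ⊢
    exact ⟨hx.1.1, hx.2.1⟩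
  omega

/-- Row I20. Few non-edges. Recipe: `n = X.card`, `m = Y.card`, `N i = E i ∩ Y`; for `i ≠ i'` in `X`: `(N i).card + (N i').card ≤ m + 1`, so at most one `i ∈ X` has
`2 (N i).card > m + 1`: `2 * ed ≤ 2 m + (n - 1) (m + 1)`; with `n m ≤ ed + n + m`: `n m ≤ 3 (n + m)`, and `ed ≤ n m`. -/
theorem compl (E : ℕ → Finset ℕ) (hC4 : C4F E) (X Y : Finset ℕ)
    (h : X.card * Y.card ≤ ed E X Y + (X.card + Y.card)) : ed E X Y ≤ 3 * (X.card + Y.card) := by
  classical
  rcases X.eq_empty_or_nonempty with hX | hX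
  · subst hX
    simp [ed]
  have hle : ∀ i, (E i ∩ Y).card ≤ Y.card := fun i => Finset.card_le_card Finset.inter_subset_right
  have hn : 1 ≤ X.card := Finset.card_pos.2 hX
  have hed : ed E X Y ≤ X.card * Y.card := by
    rw [ed_eq_sum]
    calc ∑ i ∈ X, (E i ∩ Y).card ≤ ∑ _i ∈ X, Y.card := Finset.sum_le_sum (fun i _ => hle i)
      _ = X.card * Y.card := by rw [Finset.sum_const, smul_eq_mul]
  -- the sum bound
  have hsum : 2 * ed E X Y ≤ 2 * Y.card + (X.card - 1) * (Y.card + 1) := by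
    obtain ⟨i₀, hi₀, hmax⟩ := Finset.exists_max_image X (fun i => (E i ∩ Y).card) hX
    rw [ed_eq_sum, ← Finset.add_sum_erase X (fun i => (E i ∩ Y).card) hi₀]
    have h5 : ∑ i ∈ X.erase i₀, 2 * (E i ∩ Y).card ≤ ∑ _i ∈ X.erase i₀, (Y.card + 1) := by
      apply Finset.sum_le_sum
      intro i hi
      have h6 := pair_le E hC4 Y i i₀ (Finset.ne_of_mem_erase hi)
      have h7 := hmax i (Finset.mem_of_mem_erase hi)
      omega
    rw [Finset.sum_const, smul_eq_mul, Finset.card_erase_of_mem hi₀, ← Finset.mul_sum] at h5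
    have h8 := hle i₀
    omega
  obtain ⟨n, hn'⟩ : ∃ n, X.card = n + 1 := ⟨X.card - 1, by omega⟩
  rw [hn'] at hsum h hed ⊢
  rw [Nat.add_sub_cancel] at hsum
  generalize hm : Y.card = m at *
  generalize he : ed E X Y = e at *
  nlinarith
end Pool.Agent.Lib.MP_4fb322_lc_h33
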