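import Pool.Agent.Lib.MP_4fb322_lc_h33.I20

set_option autoImplicit false

namespace Pool.Agent.Lib.MP_4fb322_lc_h33

open Set Filter Pool.Agent.Lib.MP_4fb322_lc_h7

private theorem ed_rev (E : ℕ → Finset ℕ) (lv : ℕ → ℕ) (g : ℕ)
    (hS : Spa E lv g) (X Y : Finset ℕ) (hXY : X.card + Y.card ≤ g) (u w : ℕ → ℕ)
    (hu : Set.InjOn u (X : Set ℕ)) (hw : Set.InjOn w (Y : Set ℕ)) (hul : ∀ i ∈ X, g ≤ lv (u i))
    (hwl : ∀ j ∈ Y, g ≤ lv (w j)) :
    ((X ×ˢ Y).filter (fun p => u p.1 ∈ E (w p.2))).card ≤ X.card + Y.card := by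
  classical
  have h1 : ((X ×ˢ Y).filter (fun p => u p.1 ∈ E (w p.2))).card ≤
      ed E (Y.image w) (X.image u) := by
    unfold ed
    refine Finset.card_le_card_of_injOn (fun p => (w p.2, u p.1)) ?_ ?_
    · intro p hp
      rw [Finset.mem_coe, Finset.mem_filter, Finset.mem_product] at hp
      rw [Finset.mem_coe, Finset.mem_filter, Finset.mem_product]
      exact ⟨⟨Finset.mem_image_of_mem _ hp.1.2, Finset.mem_image_of_mem _ hp.1.1⟩, hp.2⟩
    · intro p hp q hq hpq
      rw [Finset.mem_coe, Finset.mem_filter, Finset.mem_product] at hp hq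
      have h2 : w p.2 = w q.2 := congrArg Prod.fst hpq
      have h3 : u p.1 = u q.1 := congrArg Prod.snd hpq
      exact Prod.ext (hu hp.1.1 hq.1.1 h3) (hw hp.1.2 hq.1.2 h2)
  have h2 : (Y.image w).card ≤ Y.card := Finset.card_image_le
  have h3 : (X.image u).card ≤ X.card := Finset.card_image_le
  have h4 := hS (Y.image w) (X.image u) (by
    intro i hi
    obtain ⟨j, hj, rfl⟩ := Finset.mem_image.1 hi
    exact hwl j hj) (by
    intro i hi
    obtain ⟨j, hj, rfl⟩ := Finset.mem_image.1 hi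
    exact hul j hj) (by omega)
  omega

/-- Row I21. The reversed part. -/
theorem reversed {Θ : Type} (op : Θ → Θ) (α β t t₀ : Θ) (ht : t ≠ t₀) (E : ℕ → Finset ℕ)
    (lv : ℕ → ℕ) (S : ℕ ⊕ ℕ → ℕ ⊕ ℕ → Θ) (hM : Mod op α β t t₀ E S) (hC4 : C4F E) (g : ℕ)
    (hS : Spa E lv g) (X Y : Finset ℕ) (hXY : X.card + Y.card ≤ g) (u w : ℕ → ℕ)
    (hu : Set.InjOn u (X : Set ℕ)) (hw : Set.InjOn w (Y : Set ℕ)) (hul : ∀ i ∈ X, g ≤ lv (u i))
    (hwl : ∀ j ∈ Y, g ≤ lv (w j)) (hT : ∀ i ∈ X, ∀ j ∈ Y,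
      S (Sum.inr (u i)) (Sum.inl (w j)) = S (Sum.inl i) (Sum.inr j)) :
    ed E X Y ≤ 3 * (X.card + Y.card) := by
  classical
  have hrev := ed_rev E lv g hS X Y hXY u w hu hw hul hwl
  have key1 : ∀ i ∈ X, ∀ j ∈ Y, j ∈ E i → u i ∈ E (w j) → op t = t := by
    intro i hi j hj h1 h2
    have h := hT i hi j hj
    rw [hM.op' (Sum.inl (w j)) (Sum.inr (u i)), hM.ab _ _ h2, hM.ab _ _ h1] at h
    exact h
  have key2 : ∀ i ∈ X, ∀ j ∈ Y, j ∈ E i → u i ∉ E (w j) → op t₀ = t := by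
    intro i hi j hj h1 h2
    have h := hT i hi j hj
    rw [hM.op' (Sum.inl (w j)) (Sum.inr (u i)), hM.ab' _ _ h2, hM.ab _ _ h1] at h
    exact h
  have key3 : ∀ i ∈ X, ∀ j ∈ Y, j ∉ E i → u i ∈ E (w j) → op t = t₀ := by
    intro i hi j hj h1 h2
    have h := hT i hi j hj
    rw [hM.op' (Sum.inl (w j)) (Sum.inr (u i)), hM.ab _ _ h2, hM.ab' _ _ h1] at h
    exact h
  have key4 : ∀ i ∈ X, ∀ j ∈ Y, j ∉ E i → u i ∉ E (w j) → op t₀ = t₀ := by
    intro i hi j hj h1 h2
    have h := hT i hi j hj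
    rw [hM.op' (Sum.inl (w j)) (Sum.inr (u i)), hM.ab' _ _ h2, hM.ab' _ _ h1] at h
    exact h
  by_cases ha : op t = t
  · by_cases hb : op t₀ = t
    · -- all edges
      apply compl E hC4 X Y
      have hall : (X ×ˢ Y).filter (fun p => p.2 ∈ E p.1) = X ×ˢ Y := by
        rw [Finset.filter_eq_self]
        intro p hp
        rw [Finset.mem_product] at hp
        by_contra hno
        by_cases h2 : u p.1 ∈ E (w p.2)
        · exact ht (ha.symm.trans (key3 _ hp.1 _ hp.2 hno h2))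
        · exact ht (hb.symm.trans (key4 _ hp.1 _ hp.2 hno h2))
      unfold ed
      rw [hall, Finset.card_product]
      omega
    · have h1 : ed E X Y ≤ ((X ×ˢ Y).filter (fun p => u p.1 ∈ E (w p.2))).card := by
        unfold ed
        apply Finset.card_le_card
        intro p hp
        rw [Finset.mem_filter, Finset.mem_product] at hp ⊢
        refine ⟨hp.1, ?_⟩
        by_contra hno
        exact hb (key2 _ hp.1.1 _ hp.1.2 hp.2 hno)
      omega
  · by_cases hb : op t₀ = t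
    · apply compl E hC4 X Y
      have h1 : ((X ×ˢ Y).filter (fun p => ¬ p.2 ∈ E p.1)).card ≤
          ((X ×ˢ Y).filter (fun p => u p.1 ∈ E (w p.2))).card := by
        apply Finset.card_le_card
        intro p hp
        rw [Finset.mem_filter, Finset.mem_product] at hp ⊢
        refine ⟨hp.1, ?_⟩
        by_contra hno
        exact ht (hb.symm.trans (key4 _ hp.1.1 _ hp.1.2 hp.2 hno))
      have h2 : ((X ×ˢ Y).filter (fun p => p.2 ∈ E p.1)).card +
          ((X ×ˢ Y).filter (fun p => ¬ p.2 ∈ E p.1)).card = (X ×ˢ Y).card :=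
        Finset.card_filter_add_card_filter_not _
      rw [Finset.card_product] at h2
      unfold ed
      omega
    · have h1 : ed E X Y = 0 := by
        unfold ed
        rw [Finset.card_eq_zero, Finset.filter_eq_empty_iff]
        intro p hp hE
        rw [Finset.mem_product] at hp
        by_cases h2 : u p.1 ∈ E (w p.2)
        · exact ha (key1 _ hp.1 _ hp.2 hE h2)
        · exact hb (key2 _ hp.1 _ hp.2 hE h2)
      omega

end Pool.Agent.Lib.MP_4fb322_lc_h33
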