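import Pool.Agent.Lib.MP_4fb322_lc_h33.I19
import Pool.Agent.Lib.MP_4fb322_lc_h33.I21

set_option autoImplicit false

namespace Pool.Agent.Lib.MP_4fb322_lc_h33

open Set Filter Pool.Agent.Lib.MP_4fb322_lc_h7

private theorem ed_sum_i22 (E : ℕ → Finset ℕ) (X Y : Finset ℕ) :
    ed E X Y = ∑ i ∈ X, ∑ j ∈ Y, if j ∈ E i then 1 else 0 := by
  unfold ed
  rw [Finset.card_filter, Finset.sum_product]

private theorem ed_split_i22 (E : ℕ → Finset ℕ) (X Y : Finset ℕ) (p q : ℕ → Prop)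
    [DecidablePred p] [DecidablePred q] :
    ed E X Y = ed E (X.filter p) (Y.filter q) + ed E (X.filter p) (Y.filter (fun j => ¬ q j)) +
      (ed E (X.filter (fun i => ¬ p i)) (Y.filter q) +
        ed E (X.filter (fun i => ¬ p i)) (Y.filter (fun j => ¬ q j))) := by
  simp only [ed_sum_i22]
  rw [← Finset.sum_filter_add_sum_filter_not X p, ← Finset.sum_add_distrib,
    ← Finset.sum_add_distrib]
  congr 1
  · apply Finset.sum_congr rfl
    intro i _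
    rw [← Finset.sum_filter_add_sum_filter_not Y q]
  · apply Finset.sum_congr rfl
    intro i _
    rw [← Finset.sum_filter_add_sum_filter_not Y q]

private theorem ed_image_i22 (E : ℕ → Finset ℕ) (X Y : Finset ℕ) (u w : ℕ → ℕ)
    (hu : Set.InjOn u (X : Set ℕ)) (hw : Set.InjOn w (Y : Set ℕ))
    (h : ∀ i ∈ X, ∀ j ∈ Y, (j ∈ E i ↔ w j ∈ E (u i))) :
    ed E X Y = ed E (X.image u) (Y.image w) := by
  simp only [ed_sum_i22]
  rw [Finset.sum_image hu]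
  apply Finset.sum_congr rfl
  intro i hi
  rw [Finset.sum_image hw]
  apply Finset.sum_congr rfl
  intro j hj
  simp only [h i hi j hj]

/-- Row I22. The edge count. -/
theorem count {Θ : Type} (op : Θ → Θ) (α β t t₀ : Θ) (ht : t ≠ t₀) (E : ℕ → Finset ℕ)
    (lv : ℕ → ℕ) (S : ℕ ⊕ ℕ → ℕ ⊕ ℕ → Θ) (hM : Mod op α β t t₀ E S) (hC4 : C4F E) (g : ℕ)
    (hS : Spa E lv g) (X Y : Finset ℕ) (hXY : X.card + Y.card ≤ g) (φ : ℕ ⊕ ℕ → ℕ ⊕ ℕ)
    (hφ : PE S S {z | (∃ i ∈ X, z = Sum.inl i) ∨ ∃ j ∈ Y, z = Sum.inr j} φ)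
    (hl : ∀ i ∈ X, φ (Sum.inl i) ∈ NN lv g) (hr : ∀ j ∈ Y, φ (Sum.inr j) ∈ NN lv g) :
    ed E X Y ≤ 4 * (X.card + Y.card) := by
  classical
  have hlm : ∀ i ∈ X, (Sum.inl i : ℕ ⊕ ℕ) ∈
      {z : ℕ ⊕ ℕ | (∃ i ∈ X, z = Sum.inl i) ∨ ∃ j ∈ Y, z = Sum.inr j} := fun i hi => Or.inl ⟨i, hi, rfl⟩
  have hrm : ∀ j ∈ Y, (Sum.inr j : ℕ ⊕ ℕ) ∈
      {z : ℕ ⊕ ℕ | (∃ i ∈ X, z = Sum.inl i) ∨ ∃ j ∈ Y, z = Sum.inr j} := fun j hj => Or.inr ⟨j, hj, rfl⟩
  have hE : ∀ i j, (j ∈ E i ↔ S (Sum.inl i) (Sum.inr j) = t) := by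
    intro i j
    constructor
    · exact hM.ab i j
    · intro h
      by_contra hn
      rw [hM.ab' i j hn] at h
      exact ht h.symm
  let p : ℕ → Prop := fun i => (φ (Sum.inl i)).isLeft = true
  let q : ℕ → Prop := fun j => (φ (Sum.inr j)).isLeft = true
  let u : ℕ → ℕ := fun i => Sum.elim id id (φ (Sum.inl i))
  let w : ℕ → ℕ := fun j => Sum.elim id id (φ (Sum.inr j))
  have hp1 : ∀ i, p i → φ (Sum.inl i) = Sum.inl (u i) := by
    intro i hi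
    have hi' : (φ (Sum.inl i)).isLeft = true := hi
    show φ (Sum.inl i) = Sum.inl (Sum.elim id id (φ (Sum.inl i)))
    rcases hc : φ (Sum.inl i) with x | x
    · rfl
    · rw [hc] at hi'; exact absurd hi' (by simp)
  have hp2 : ∀ i, ¬ p i → φ (Sum.inl i) = Sum.inr (u i) := by
    intro i hi
    have hi' : ¬ (φ (Sum.inl i)).isLeft = true := hi
    show φ (Sum.inl i) = Sum.inr (Sum.elim id id (φ (Sum.inl i)))
    rcases hc : φ (Sum.inl i) with x | x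
    · rw [hc] at hi'; exact absurd rfl hi'
    · rfl
  have hq1 : ∀ j, q j → φ (Sum.inr j) = Sum.inl (w j) := by
    intro i hi
    have hi' : (φ (Sum.inr i)).isLeft = true := hi
    show φ (Sum.inr i) = Sum.inl (Sum.elim id id (φ (Sum.inr i)))
    rcases hc : φ (Sum.inr i) with x | x
    · rfl
    · rw [hc] at hi'; exact absurd hi' (by simp)
  have hq2 : ∀ j, ¬ q j → φ (Sum.inr j) = Sum.inr (w j) := by
    intro i hi
    have hi' : ¬ (φ (Sum.inr i)).isLeft = true := hi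
    show φ (Sum.inr i) = Sum.inr (Sum.elim id id (φ (Sum.inr i)))
    rcases hc : φ (Sum.inr i) with x | x
    · rw [hc] at hi'; exact absurd rfl hi'
    · rfl
  have hlu : ∀ i ∈ X, g ≤ lv (u i) := by
    intro i hi
    have h1 : g ≤ Sum.elim lv lv (φ (Sum.inl i)) := hl i hi
    by_cases h : p i
    · rw [hp1 i h] at h1; exact h1
    · rw [hp2 i h] at h1; exact h1
  have hlw : ∀ j ∈ Y, g ≤ lv (w j) := by
    intro i hi
    have h1 : g ≤ Sum.elim lv lv (φ (Sum.inr i)) := hr i hi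
    by_cases h : q i
    · rw [hq1 i h] at h1; exact h1
    · rw [hq2 i h] at h1; exact h1
  have hT : ∀ i ∈ X, ∀ j ∈ Y, S (φ (Sum.inl i)) (φ (Sum.inr j)) = S (Sum.inl i) (Sum.inr j) :=
    fun i hi j hj => hφ.2 _ (hlm i hi) _ (hrm j hj)
  have hne : ∀ i ∈ X, ∀ j ∈ Y, φ (Sum.inl i) ≠ φ (Sum.inr j) := by
    intro i hi j hj h
    have := hφ.1 (hlm i hi) (hrm j hj) h
    exact absurd this (by simp)
  have huI : ∀ i ∈ X, ∀ i' ∈ X, φ (Sum.inl i) = φ (Sum.inl i') → i = i' := by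
    intro i hi i' hi' h
    exact Sum.inl.inj (hφ.1 (hlm i hi) (hlm i' hi') h)
  have hwI : ∀ i ∈ Y, ∀ i' ∈ Y, φ (Sum.inr i) = φ (Sum.inr i') → i = i' := by
    intro i hi i' hi' h
    exact Sum.inr.inj (hφ.1 (hrm i hi) (hrm i' hi') h)
  set A₁ := X.filter p with hA₁
  set A₂ := X.filter (fun i => ¬ p i) with hA₂
  set B₁ := Y.filter q with hB₁
  set B₂ := Y.filter (fun j => ¬ q j) with hB₂
  have mA₁ : ∀ i ∈ A₁, i ∈ X ∧ p i := fun i hi => Finset.mem_filter.1 hi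
  have mA₂ : ∀ i ∈ A₂, i ∈ X ∧ ¬ p i := fun i hi => Finset.mem_filter.1 hi
  have mB₁ : ∀ j ∈ B₁, j ∈ Y ∧ q j := fun i hi => Finset.mem_filter.1 hi
  have mB₂ : ∀ j ∈ B₂, j ∈ Y ∧ ¬ q j := fun i hi => Finset.mem_filter.1 hi
  have iA₁ : Set.InjOn u (A₁ : Set ℕ) := by
    intro i hi i' hi' h
    apply huI i (mA₁ i hi).1 i' (mA₁ i' hi').1
    rw [hp1 i (mA₁ i hi).2, hp1 i' (mA₁ i' hi').2, h]
  have iA₂ : Set.InjOn u (A₂ : Set ℕ) := by
    intro i hi i' hi' h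
    apply huI i (mA₂ i hi).1 i' (mA₂ i' hi').1
    rw [hp2 i (mA₂ i hi).2, hp2 i' (mA₂ i' hi').2, h]
  have iB₁ : Set.InjOn w (B₁ : Set ℕ) := by
    intro i hi i' hi' h
    apply hwI i (mB₁ i hi).1 i' (mB₁ i' hi').1
    rw [hq1 i (mB₁ i hi).2, hq1 i' (mB₁ i' hi').2, h]
  have iB₂ : Set.InjOn w (B₂ : Set ℕ) := by
    intro i hi i' hi' h
    apply hwI i (mB₂ i hi).1 i' (mB₂ i' hi').1
    rw [hq2 i (mB₂ i hi).2, hq2 i' (mB₂ i' hi').2, h]
  have cA : A₁.card + A₂.card = X.card := Finset.card_filter_add_card_filter_not p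
  have cB : B₁.card + B₂.card = Y.card := Finset.card_filter_add_card_filter_not q
  -- A₁ × B₁
  have e11 : ed E A₁ B₁ ≤ A₁.card + B₁.card := by
    apply nested E hC4 A₁ B₁ u w (α = t) (op α = t)
    · intro i hi j hj h
      apply hne i (mA₁ i hi).1 j (mB₁ j hj).1
      rw [hp1 i (mA₁ i hi).2, hq1 j (mB₁ j hj).2, h]
    · intro i hi j hj h
      have h1 := hT i (mA₁ i hi).1 j (mB₁ j hj).1
      rw [hp1 i (mA₁ i hi).2, hq1 j (mB₁ j hj).2, hM.aa _ _ h] at h1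
      rw [hE, ← h1]
    · intro i hi j hj h
      have h1 := hT i (mA₁ i hi).1 j (mB₁ j hj).1
      rw [hp1 i (mA₁ i hi).2, hq1 j (mB₁ j hj).2, hM.op' (Sum.inl (w j)) (Sum.inl (u i)),
        hM.aa _ _ h] at h1
      rw [hE, ← h1]
  -- A₂ × B₂
  have e22 : ed E A₂ B₂ ≤ A₂.card + B₂.card := by
    apply nested E hC4 A₂ B₂ u w (β = t) (op β = t)
    · intro i hi j hj h
      apply hne i (mA₂ i hi).1 j (mB₂ j hj).1
      rw [hp2 i (mA₂ i hi).2, hq2 j (mB₂ j hj).2, h]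
    · intro i hi j hj h
      have h1 := hT i (mA₂ i hi).1 j (mB₂ j hj).1
      rw [hp2 i (mA₂ i hi).2, hq2 j (mB₂ j hj).2, hM.bb _ _ h] at h1
      rw [hE, ← h1]
    · intro i hi j hj h
      have h1 := hT i (mA₂ i hi).1 j (mB₂ j hj).1
      rw [hp2 i (mA₂ i hi).2, hq2 j (mB₂ j hj).2, hM.op' (Sum.inr (w j)) (Sum.inr (u i)),
        hM.bb _ _ h] at h1
      rw [hE, ← h1]
  -- A₁ × B₂
  have e12 : ed E A₁ B₂ ≤ A₁.card + B₂.card := by
    rw [ed_image_i22 E A₁ B₂ u w iA₁ iB₂ ?_]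
    · have h1 := hS (A₁.image u) (B₂.image w) ?_ ?_ ?_
      · have h2 := Finset.card_image_of_injOn iA₁
        have h3 := Finset.card_image_of_injOn iB₂
        omega
      · intro i hi
        obtain ⟨k, hk, rfl⟩ := Finset.mem_image.1 hi
        exact hlu k (mA₁ k hk).1
      · intro i hi
        obtain ⟨k, hk, rfl⟩ := Finset.mem_image.1 hi
        exact hlw k (mB₂ k hk).1
      · have h2 := Finset.card_image_le (s := A₁) (f := u)
        have h3 := Finset.card_image_le (s := B₂) (f := w)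
        omega
    · intro i hi j hj
      have h1 := hT i (mA₁ i hi).1 j (mB₂ j hj).1
      rw [hp1 i (mA₁ i hi).2, hq2 j (mB₂ j hj).2] at h1
      rw [hE, hE, h1]
  -- A₂ × B₁
  have e21 : ed E A₂ B₁ ≤ 3 * (A₂.card + B₁.card) := by
    apply reversed op α β t t₀ ht E lv S hM hC4 g hS A₂ B₁ (by omega) u w iA₂ iB₁
    · exact fun i hi => hlu i (mA₂ i hi).1
    · exact fun j hj => hlw j (mB₁ j hj).1
    · intro i hi j hj
      have h1 := hT i (mA₂ i hi).1 j (mB₁ j hj).1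
      rw [hp2 i (mA₂ i hi).2, hq1 j (mB₁ j hj).2] at h1
      exact h1
  have h0 := ed_split_i22 E X Y p q
  rw [← hA₁, ← hA₂, ← hB₁, ← hB₂] at h0
  omega

end Pool.Agent.Lib.MP_4fb322_lc_h33
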