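import Pool.Agent.Lib.MP_4fb322_lc_h7.Defs

set_option autoImplicit false

/-!
# The independence property gives a strictly decreasing sequence of ages: definitions
-/

namespace Pool.Agent.Lib.MP_4fb322_lc_h33

open Set Filter Pool.Agent.Lib.MP_4fb322_lc_h7

/-- Natarajan shattering of a set of size `d` -/
def NSh {Θ : Type} {N : ℕ} (F : Set (Fin N → Θ)) (d : ℕ) : Prop :=
  ∃ (e : Fin d → Fin N) (p q : Fin d → Θ), Function.Injective e ∧ (∀ i, p i ≠ q i) ∧
    ∀ S : Set (Fin d), ∃ f ∈ F, ∀ i, (i ∈ S → f (e i) = p i) ∧ (i ∉ S → f (e i) = q i)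

/-- the bound in Natarajan's lemma -/
def bnd (K : ℕ) : ℕ → ℕ → ℕ
  | _, 0 => 0
  | 0, _ + 1 => 1
  | N + 1, d + 1 => bnd K N (d + 1) + K * bnd K N d

/-- all patterns with the two types `t`, `t₀` occur on `n` points -/
def Shat2 {Θ V : Type} (T : V → V → Θ) (t t₀ : Θ) (n : ℕ) : Prop :=
  ∃ z : Fin n → V, ∀ S : Set (Fin n), ∃ y : V,
    ∀ i, (i ∈ S → T (z i) y = t) ∧ (i ∉ S → T (z i) y = t₀)

/-- the relation of the ultrapower -/
noncomputable def TT {Θ V : Type} [Nonempty Θ] (T : V → V → Θ) (x y : ℕ → V) : Θ :=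
  lim UF (fun N => T (x N) (y N))

/-- infinitely many shattered points `z i`, with a constant type `α` between them -/
structure Sys {Θ X : Type} (T : X → X → Θ) (t t₀ α : Θ) (z : ℕ → X) (y : Set ℕ → X) : Prop where
  pat : ∀ i S, (i ∈ S → T (z i) (y S) = t) ∧ (i ∉ S → T (z i) (y S) = t₀)
  mono : ∀ i j, i < j → T (z i) (z j) = α

/-- `x` and `y` are distinguished by some point -/
def Dst {Θ X : Type} (T : X → X → Θ) (x y : X) : Prop :=
  (∃ w, T x w ≠ T y w) ∨ ∃ w, T w x ≠ T w y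

/-- points `z k` with pattern `D k` over the points `b j`; every finite pattern occurs infinitely often -/
structure Sys2 {Θ X : Type} (T : X → X → Θ) (t t₀ α β : Θ) (z b : ℕ → X) (D : ℕ → Finset ℕ) :
    Prop where
  zz : ∀ i j, i < j → T (z i) (z j) = α
  bb : ∀ i j, i < j → T (b i) (b j) = β
  zb : ∀ k j, j ∈ D k → T (z k) (b j) = t
  zb' : ∀ k j, j ∉ D k → T (z k) (b j) = t₀
  inf : ∀ D₀ : Finset ℕ, ∃ᶠ k in atTop, D k = D₀
  dz : ∀ k l, k ≠ l → Dst T (z k) (z l)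

/-- the structure `S` codes the ordered bipartite graph `E`, `i` (left) adjacent to `j ∈ E i` (right) -/
structure Mod {Θ : Type} (op : Θ → Θ) (α β t t₀ : Θ) (E : ℕ → Finset ℕ)
    (S : ℕ ⊕ ℕ → ℕ ⊕ ℕ → Θ) : Prop where
  op' : ∀ x y, S y x = op (S x y)
  aa : ∀ i j, i < j → S (Sum.inl i) (Sum.inl j) = α
  bb : ∀ i j, i < j → S (Sum.inr i) (Sum.inr j) = β
  ab : ∀ i j, j ∈ E i → S (Sum.inl i) (Sum.inr j) = t
  ab' : ∀ i j, j ∉ E i → S (Sum.inl i) (Sum.inr j) = t₀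

/-- the number of edges between `X` (left) and `Y` (right) -/
def ed (E : ℕ → Finset ℕ) (X Y : Finset ℕ) : ℕ :=
  ((X ×ˢ Y).filter (fun p => p.2 ∈ E p.1)).card

/-- a finite core of a bipartite graph: every vertex has at least two neighbours in the core -/
structure Core {A B : Type} (R : A → B → Prop) (X : Finset A) (Y : Finset B) : Prop where
  ne : 0 < X.card + Y.card
  left : ∀ a ∈ X, ∃ b ∈ Y, ∃ b' ∈ Y, b ≠ b' ∧ R a b ∧ R a b'
  right : ∀ b ∈ Y, ∃ a ∈ X, ∃ a' ∈ X, a ≠ a' ∧ R a b ∧ R a' b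

/-- every core has more than `k` vertices -/
def NoCore {A B : Type} (R : A → B → Prop) (k : ℕ) : Prop :=
  ∀ (X : Finset A) (Y : Finset B), Core R X Y → k < X.card + Y.card

open Classical in
/-- the `(ZMod 2) ^ (edges)` lift of a bipartite graph -/
def lift {A B : Type} (R : A → B → Prop) :
    A × (A × B → ZMod 2) → B × (A × B → ZMod 2) → Prop :=
  fun p q => R p.1 q.1 ∧ q.2 = p.2 + Pi.single (p.1, q.1) 1

/-- no two left vertices have two common neighbours -/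
def C4F (E : ℕ → Finset ℕ) : Prop := ∀ i i', i ≠ i' → (E i ∩ E i').card ≤ 1

/-- vertices of level at least `g` -/
def NN (lv : ℕ → ℕ) (g : ℕ) : Set (ℕ ⊕ ℕ) := {z | g ≤ Sum.elim lv lv z}

/-- local sparsity at level `g` -/
def Spa (E : ℕ → Finset ℕ) (lv : ℕ → ℕ) (g : ℕ) : Prop :=
  ∀ X Y : Finset ℕ, (∀ i ∈ X, g ≤ lv i) → (∀ j ∈ Y, g ≤ lv j) → X.card + Y.card ≤ g →
    ed E X Y ≤ X.card + Y.card

end Pool.Agent.Lib.MP_4fb322_lc_h33
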