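import Pool.Agent.Lib.MP_4fb322_lc_h33.I11
import Pool.Agent.Lib.MP_4fb322_lc_h33.I18
import Pool.Agent.Lib.MP_4fb322_lc_h33.I22

set_option autoImplicit false

namespace Pool.Agent.Lib.MP_4fb322_lc_h33

open Set Filter Pool.Agent.Lib.MP_4fb322_lc_h7

/-- Row FIN. The final statement. -/
theorem ip_chain {Θ V : Type} [Finite Θ] [Nonempty Θ] (op : Θ → Θ) (T : V → V → Θ)
    (hop : ∀ x y, T y x = op (T x y)) (θ : Θ) (h : ∀ n, Shat T θ n) :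
    ∃ (S : ℕ ⊕ ℕ → ℕ ⊕ ℕ → Θ) (N : ℕ → Set (ℕ ⊕ ℕ)), (∀ x y, S y x = op (S x y)) ∧
      (∀ Y : Set (ℕ ⊕ ℕ), Y.Finite → ∃ f : ℕ ⊕ ℕ → V, PE S T Y f) ∧
      (∀ g, N (g + 1) ⊆ N g) ∧
      ∀ g, ∃ g' > g, ∃ Y ⊆ N g, Y.Finite ∧
        ¬ ∃ f : ℕ ⊕ ℕ → ℕ ⊕ ℕ, PE S S Y f ∧ ∀ y ∈ Y, f y ∈ N g' := by
  obtain ⟨t, t₀, ht, h2⟩ := shat2_all T θ h
  obtain ⟨α, β, hm⟩ := model op T hop t t₀ ht h2
  obtain ⟨E, lv, hS, hC, hB⟩ := exists_E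
  obtain ⟨S, hM, hE⟩ := hm E
  refine ⟨S, NN lv, hM.op', hE, fun g z hz => le_trans (Nat.le_succ g) hz, fun g => ?_⟩
  obtain ⟨X, Y, hX, hY, hXY⟩ := hB g
  refine ⟨max (g + 1) (X.card + Y.card), lt_of_lt_of_le (Nat.lt_succ_self g) (le_max_left _ _),
    {z | (∃ i ∈ X, z = Sum.inl i) ∨ ∃ j ∈ Y, z = Sum.inr j}, ?_, ?_, ?_⟩
  · rintro z (⟨i, hi, rfl⟩ | ⟨j, hj, rfl⟩)
    · exact hX i hi
    · exact hY j hj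
  · have e : {z : ℕ ⊕ ℕ | (∃ i ∈ X, z = Sum.inl i) ∨ ∃ j ∈ Y, z = Sum.inr j} =
        (Sum.inl '' (X : Set ℕ)) ∪ (Sum.inr '' (Y : Set ℕ)) := by
      ext z
      constructor
      · rintro (⟨i, hi, rfl⟩ | ⟨j, hj, rfl⟩)
        · exact Or.inl ⟨i, hi, rfl⟩
        · exact Or.inr ⟨j, hj, rfl⟩
      · rintro (⟨i, hi, rfl⟩ | ⟨j, hj, rfl⟩)
        · exact Or.inl ⟨i, hi, rfl⟩
        · exact Or.inr ⟨j, hj, rfl⟩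
    rw [e]
    exact (X.finite_toSet.image _).union (Y.finite_toSet.image _)
  · rintro ⟨f, hf, hfN⟩
    have := count op α β t t₀ ht E lv S hM hC _ (hS (max (g + 1) (X.card + Y.card))) X Y
      (le_max_right _ _) f hf (fun i hi => hfN _ (Or.inl ⟨i, hi, rfl⟩))
      (fun j hj => hfN _ (Or.inr ⟨j, hj, rfl⟩))
    omega

end Pool.Agent.Lib.MP_4fb322_lc_h33
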