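import Pool.Agent.Lib.MP_4fb322_lc_h33.IPFinal
import Pool.Agent.Lib.MP_4fb322_lc_h91b.Iface

set_option autoImplicit false

namespace Pool.Agent.Lib.MP_4fb322_lc_h33

open Set Filter Pool.Agent.Lib.MP_4fb322_lc_h7 Pool.Agent.Lib.MP_4fb322_lc_h91b

/-- well-foundedness of the poset of subages implies that no type has the independence property -/
theorem nip_of_wf {Θ V : Type} [Finite Θ] (op : Θ → Θ) (T : V → V → Θ)
    (opT : ∀ x y, T y x = op (T x y)) (hwf : WF2 T) : ∀ θ, ∃ n, ¬ Shat T θ n := by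
  classical
  intro θ
  by_contra hcon
  have h : ∀ n, Shat T θ n := by
    intro n
    by_contra hn
    exact hcon ⟨n, hn⟩
  haveI : Nonempty Θ := ⟨θ⟩
  obtain ⟨S, N, -, hE, hN, hD⟩ := ip_chain op T opT θ h
  choose nx hnx Y hY hYf hno using hD
  have hanti : ∀ g g', g ≤ g' → N g' ⊆ N g := by
    intro g g' hg
    induction hg with
    | refl => exact subset_rfl
    | step _ ih => exact (hN _).trans ih
  let G : ℕ → ℕ := fun k => nx^[k] 0
  have hG : ∀ k, G (k + 1) = nx (G k) := fun k => Function.iterate_succ_apply' nx k 0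
  apply hwf
  refine ⟨fun k => N (G k), fun k x y => S x.1 y.1, ?_, ?_⟩
  · intro k Z hZ
    obtain ⟨f, hf⟩ := hE (Subtype.val '' Z) (hZ.image _)
    refine ⟨fun x => f x.1, ?_, ?_⟩
    · intro x hx y hy hxy
      exact Subtype.ext (hf.1 ⟨x, hx, rfl⟩ ⟨y, hy, rfl⟩ hxy)
    · intro x hx y hy
      exact hf.2 x.1 ⟨x, hx, rfl⟩ y.1 ⟨y, hy, rfl⟩
  · intro k
    constructor
    · intro Z _
      have hsub : N (G (k + 1)) ⊆ N (G k) := by
        apply hanti
        rw [hG]
        exact (hnx (G k)).le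
      refine ⟨fun x => ⟨x.1, hsub x.2⟩, ?_, ?_⟩
      · intro x _ y _ hxy
        apply Subtype.ext
        simpa using hxy
      · intro x _ y _
        rfl
    · intro hloc
      have hfin : ({x : N (G k) | x.1 ∈ Y (G k)} : Set (N (G k))).Finite :=
        (hYf (G k)).preimage (Subtype.val_injective.injOn)
      obtain ⟨h, hh⟩ := hloc _ hfin
      apply hno (G k)
      refine ⟨fun z => if hz : z ∈ N (G k) then (h ⟨z, hz⟩).1 else z, ⟨?_, ?_⟩, ?_⟩
      · intro x hx y hy hxy
        have hx' := hY (G k) hx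
        have hy' := hY (G k) hy
        simp only [dif_pos hx', dif_pos hy'] at hxy
        have h3 : (⟨x, hx'⟩ : N (G k)) = ⟨y, hy'⟩ :=
          hh.1 (show (⟨x, hx'⟩ : N (G k)) ∈ _ from hx) (show (⟨y, hy'⟩ : N (G k)) ∈ _ from hy)
            (Subtype.ext hxy)
        exact congrArg Subtype.val h3
      · intro x hx y hy
        have hx' := hY (G k) hx
        have hy' := hY (G k) hy
        simp only [dif_pos hx', dif_pos hy']
        exact hh.2 ⟨x, hx'⟩ hx ⟨y, hy'⟩ hy
      · intro y hy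
        have hy' := hY (G k) hy
        simp only [dif_pos hy']
        have h2 := (h ⟨y, hy'⟩).2
        have h4 : N (G (k + 1)) = N (nx (G k)) := by rw [hG]
        exact h4 ▸ h2

end Pool.Agent.Lib.MP_4fb322_lc_h33
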